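import Pool.Agent.R422.EX.Ext

/-!
# The main argument
-/

set_option autoImplicit false

open scoped Topology ENNReal Real ComplexConjugate
open MeasureTheory Filter Set Complex

noncomputable section

namespace Pool.Agent.R422.EX

/-- the bounded holomorphic functions, as functions -/
def HS : Submodule ℂ (TC → ℂ) where
  carrier := {u | HI u}
  add_mem' := fun h1 h2 => HI.add h1 h2
  zero_mem' := hi_const 0
  smul_mem' := fun c _ h => HI.smul h c

/-- a right inverse on a finite dimensional quotient, with a bound -/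
theorem lift {ι : Type} [Fintype ι] (W : HS →ₗ[ℂ] (ι → ℂ)) :
    ∃ ρ : LinearMap.range W →ₗ[ℂ] HS, (∀ y, W (ρ y) = y) ∧
      ∃ C : ℝ, 0 < C ∧ ∀ y, ∀ᵐ x ∂mT, ‖(ρ y : TC → ℂ) x‖ ≤ C * ‖y‖ := by
  obtain ⟨ρ, hρ⟩ := W.rangeRestrict.exists_rightInverse_of_surjective W.range_rangeRestrict
  refine ⟨ρ, fun y => ?_, ?_⟩
  · have := LinearMap.congr_fun hρ y
    exact congrArg Subtype.val this
  · set b := Module.finBasis ℂ (LinearMap.range W) with hb
    set e := b.equivFunL with he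
    obtain ⟨K, hK0, hK⟩ : ∃ K : ℝ, 0 ≤ K ∧ ∀ y, ‖e y‖ ≤ K * ‖y‖ :=
      ⟨‖e.toContinuousLinearMap‖, ContinuousLinearMap.opNorm_nonneg _, fun y => e.toContinuousLinearMap.le_opNorm y⟩
    have h1 : ∀ j, ∃ D : ℝ, 0 ≤ D ∧ ∀ᵐ x ∂mT, ‖(ρ (b j) : TC → ℂ) x‖ ≤ D := fun j =>
      BM.exists_nonneg (show HI (ρ (b j) : TC → ℂ) from (ρ (b j)).2).1
    choose D hD0 hD using h1
    refine ⟨∑ j, K * D j + 1, ?_, fun y => ?_⟩
    · have : 0 ≤ ∑ j, K * D j :=
        Finset.sum_nonneg fun j _ => mul_nonneg hK0 (hD0 j)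
      linarith
    · have h2 : ρ y = ∑ j, (e y j) • ρ (b j) := by
        conv_lhs => rw [← b.sum_equivFun y]
        rw [map_sum]
        refine Finset.sum_congr rfl fun j _ => ?_
        rw [map_smul]
        rfl
      have h3 : ∀ j, ‖e y j‖ ≤ K * ‖y‖ := fun j =>
        (norm_le_pi_norm (e y) j).trans (hK y)
      filter_upwards [ae_all_iff.2 hD] with x hx
      have h4 : (ρ y : TC → ℂ) x = ∑ j, (e y j) * (ρ (b j) : TC → ℂ) x := by
        rw [h2]
        simp
      rw [h4]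
      refine (norm_sum_le _ _).trans ?_
      have h5 : ∑ j, ‖(e y j) * (ρ (b j) : TC → ℂ) x‖ ≤
          ∑ j, K * ‖y‖ * D j := by
        refine Finset.sum_le_sum fun j _ => ?_
        rw [norm_mul]
        exact mul_le_mul (h3 j) (hx j) (norm_nonneg _) (by positivity)
      refine h5.trans ?_
      have h6 : ∑ j, K * ‖y‖ * D j =
          (∑ j, K * D j) * ‖y‖ := by
        rw [Finset.sum_mul]
        exact Finset.sum_congr rfl fun j _ => by ring
      rw [h6, add_mul, one_mul]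
      have := norm_nonneg y
      linarith

/-- linear maps converging to the identity -/
theorem solve {V : Type} [NormedAddCommGroup V] [NormedSpace ℂ V] [FiniteDimensional ℂ V]
    (M : ℕ → V →ₗ[ℂ] V) (hM : ∀ y, Tendsto (fun k => M k y) atTop (𝓝 y)) :
    ∀ᶠ k in atTop, ∀ t, ∃ y, M k y = t ∧ ‖y‖ ≤ 2 * ‖t‖ := by
  set b := Module.finBasis ℂ V with hb
  set e := b.equivFunL with he
  obtain ⟨K, hK0, hK⟩ : ∃ K : ℝ, 0 ≤ K ∧ ∀ y, ‖e y‖ ≤ K * ‖y‖ :=
    ⟨‖e.toContinuousLinearMap‖, ContinuousLinearMap.opNorm_nonneg _, fun y => e.toContinuousLinearMap.le_opNorm y⟩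
  have h1 : Tendsto (fun k => ∑ j, K * ‖M k (b j) - b j‖) atTop (𝓝 0) := by
    have : Tendsto (fun k => ∑ j, K * ‖M k (b j) - b j‖) atTop
        (𝓝 (∑ j : Fin (Module.finrank ℂ V), K * 0)) := by
      refine tendsto_finsetSum _ fun j _ => Tendsto.const_mul _ ?_
      rw [← tendsto_iff_norm_sub_tendsto_zero]
      exact hM (b j)
    simpa using this
  filter_upwards [h1.eventually_lt_const (show (0 : ℝ) < 1 / 2 by norm_num)] with k hk
  have h2 : ∀ y, ‖M k y - y‖ ≤ 1 / 2 * ‖y‖ := by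
    intro y
    have h3 : M k y - y = ∑ j, (e y j) • (M k (b j) - b j) := by
      have h4 : y = ∑ j, (e y j) • b j := (b.sum_equivFun y).symm
      conv_lhs => rw [h4]
      rw [map_sum, ← Finset.sum_sub_distrib]
      refine Finset.sum_congr rfl fun j _ => ?_
      rw [map_smul, smul_sub]
    have h3' : ∀ j, ‖e y j‖ ≤ K * ‖y‖ := fun j =>
      (norm_le_pi_norm (e y) j).trans (hK y)
    rw [h3]
    refine (norm_sum_le _ _).trans ?_
    calc ∑ j, ‖(e y j) • (M k (b j) - b j)‖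
        ≤ ∑ j, (K * ‖M k (b j) - b j‖) * ‖y‖ := by
          refine Finset.sum_le_sum fun j _ => ?_
          rw [norm_smul]
          calc ‖e y j‖ * ‖M k (b j) - b j‖ ≤ (K * ‖y‖) * ‖M k (b j) - b j‖ :=
                mul_le_mul_of_nonneg_right (h3' j) (norm_nonneg _)
            _ = _ := by ring
      _ = (∑ j, (K * ‖M k (b j) - b j‖)) * ‖y‖ := by rw [Finset.sum_mul]
      _ ≤ 1 / 2 * ‖y‖ := mul_le_mul_of_nonneg_right hk.le (norm_nonneg _)
  have h3 : ∀ y, ‖y‖ ≤ 2 * ‖M k y‖ := by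
    intro y
    have h4 := h2 y
    have h5 : ‖y‖ ≤ ‖M k y‖ + ‖M k y - y‖ := by
      calc ‖y‖ = ‖M k y - (M k y - y)‖ := by congr 1; abel
        _ ≤ _ := norm_sub_le _ _
    linarith
  have hinj : Function.Injective (M k) := by
    rw [← LinearMap.ker_eq_bot, LinearMap.ker_eq_bot']
    intro y hy
    have := h3 y
    rw [hy, norm_zero, mul_zero] at this
    exact norm_le_zero_iff.1 this
  have hsurj := LinearMap.injective_iff_surjective.1 hinj
  intro t
  obtain ⟨y, hy⟩ := hsurj t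
  refine ⟨y, hy, ?_⟩
  have := h3 y
  rwa [hy] at this

end Pool.Agent.R422.EX
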