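import Pool.Agent.R422.EX.Fnl

/-!
# Decomposition of finitely many functionals
-/

set_option autoImplicit false

open scoped Topology ENNReal
open MeasureTheory Filter Set

noncomputable section

namespace Pool.Agent.R422.EX

variable {X : Type} [MeasurableSpace X] {μ : Measure X}

/-- the sets which carry the singular parts -/
theorem exhaust [IsFiniteMeasure μ] (ν : Set X → ℝ) (N : ℝ) (h0 : ∀ E, 0 ≤ ν E) (hN : ∀ E, ν E ≤ N)
    (hmono : ∀ E F : Set X, E ⊆ F → ν E ≤ ν F)
    (hadd : ∀ E F, MeasurableSet E → MeasurableSet F → Disjoint E F → ν (E ∪ F) = ν E + ν F) :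
    ∃ B : ℕ → Set X, (∀ n, MeasurableSet (B n)) ∧ Antitone B ∧
      (∀ n, μ (B n) ≤ ENNReal.ofReal ((1 / 16) ^ n)) ∧
      ∀ ε : ℝ, 0 < ε → ∃ δ : ℝ, 0 < δ ∧ ∀ E, MeasurableSet E → μ E ≤ ENNReal.ofReal δ →
        ∀ᶠ n in atTop, ν (E \ B n) ≤ ε := by
  classical
  set S : ℝ → Set ℝ := fun d => {r | ∃ E, MeasurableSet E ∧ μ E ≤ ENNReal.ofReal d ∧ r = ν E}
    with hS
  have hSb : ∀ d, BddAbove (S d) := by
    intro d
    refine ⟨N, ?_⟩
    rintro r ⟨E, -, -, rfl⟩
    exact hN E
  have hSn : ∀ d, (S d).Nonempty := fun d => ⟨ν ∅, ∅, MeasurableSet.empty, by simp, rfl⟩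
  set g : ℝ → ℝ := fun d => sSup (S d) with hg
  have hgle : ∀ d E, MeasurableSet E → μ E ≤ ENNReal.ofReal d → ν E ≤ g d := fun d E hE hd =>
    le_csSup (hSb d) ⟨E, hE, hd, rfl⟩
  have hgmono : ∀ d e, d ≤ e → g d ≤ g e := by
    intro d e hde
    refine csSup_le (hSn d) ?_
    rintro r ⟨E, hE, hd, rfl⟩
    exact hgle e E hE (hd.trans (ENNReal.ofReal_le_ofReal hde))
  have hg0 : ∀ d, 0 ≤ g d := by
    intro d
    obtain ⟨r, E, hE, hd, rfl⟩ := hSn d
    exact (h0 E).trans (hgle d E hE hd)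
  set s : ℝ := sInf (g '' Ioi 0) with hs
  have hbb : BddBelow (g '' Ioi 0) := ⟨0, by rintro _ ⟨d, -, rfl⟩; exact hg0 d⟩
  have hsle : ∀ d, 0 < d → s ≤ g d := fun d hd => csInf_le hbb ⟨d, hd, rfl⟩
  have hslt : ∀ ε, 0 < ε → ∃ d, 0 < d ∧ g d < s + ε := by
    intro ε hε
    have h1 : sInf (g '' Ioi 0) < s + ε := by rw [← hs]; linarith
    have hne : (g '' Ioi 0).Nonempty := ⟨g 1, 1, mem_Ioi.2 one_pos, rfl⟩
    obtain ⟨_, ⟨d, hd, rfl⟩, h2⟩ := exists_lt_of_csInf_lt hne h1
    exact ⟨d, hd, h2⟩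
  have hB : ∀ n : ℕ, ∃ E, MeasurableSet E ∧ μ E ≤ ENNReal.ofReal ((1 / 16) ^ n / 2) ∧
      s - (1 / 2) ^ n < ν E := by
    intro n
    have h1 : s - (1 / 2) ^ n < g ((1 / 16) ^ n / 2) := by
      have := hsle ((1 / 16) ^ n / 2) (by positivity)
      have h2 : (0 : ℝ) < (1 / 2) ^ n := by positivity
      linarith
    obtain ⟨r, ⟨E, hE, hd, rfl⟩, h2⟩ := exists_lt_of_lt_csSup (hSn _) h1
    exact ⟨E, hE, hd, h2⟩
  choose B' hB'm hB'μ hB'ν using hB
  set B : ℕ → Set X := fun n => ⋃ k, B' (n + k) with hBdef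
  have hBm : ∀ n, MeasurableSet (B n) := fun n => MeasurableSet.iUnion fun k => hB'm _
  have hBanti : Antitone B := by
    intro m n hmn x hx
    simp only [hBdef, mem_iUnion] at hx ⊢
    obtain ⟨k, hk⟩ := hx
    exact ⟨n - m + k, by rwa [← add_assoc, Nat.add_sub_cancel' hmn]⟩
  have hBμ : ∀ n, μ (B n) ≤ ENNReal.ofReal ((1 / 16) ^ n) := by
    intro n
    have hsum : HasSum (fun k : ℕ => (1 / 16 : ℝ) ^ (n + k) / 2) ((1 / 16) ^ n / 2 * (1 - 1 / 16)⁻¹) := by
      have := (hasSum_geometric_of_lt_one (r := (1 / 16 : ℝ)) (by norm_num) (by norm_num)).mul_left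
        ((1 / 16 : ℝ) ^ n / 2)
      have e : (fun k : ℕ => (1 / 16 : ℝ) ^ (n + k) / 2) =
          fun k => (1 / 16) ^ n / 2 * (1 / 16) ^ k := by
        funext k
        rw [pow_add]
        ring
      rw [e]
      exact this
    calc μ (B n) ≤ ∑' k, μ (B' (n + k)) := measure_iUnion_le _
      _ ≤ ∑' k, ENNReal.ofReal ((1 / 16 : ℝ) ^ (n + k) / 2) := ENNReal.tsum_le_tsum fun k => hB'μ _
      _ = ENNReal.ofReal (∑' k, (1 / 16 : ℝ) ^ (n + k) / 2) :=
          (ENNReal.ofReal_tsum_of_nonneg (fun k => by positivity) hsum.summable).symm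
      _ ≤ ENNReal.ofReal ((1 / 16) ^ n) := by
          refine ENNReal.ofReal_le_ofReal ?_
          rw [hsum.tsum_eq]
          have : (0 : ℝ) < (1 / 16) ^ n := by positivity
          norm_num
          nlinarith
  have hBs : ∀ n, s ≤ ν (B n) := by
    intro n
    have h1 : ∀ m, s - (1 / 2) ^ (n + m) ≤ ν (B n) := by
      intro m
      refine (hB'ν (n + m)).le.trans (hmono _ _ ?_)
      intro x hx
      exact mem_iUnion.2 ⟨m, hx⟩
    have h2 : Tendsto (fun m : ℕ => s - (1 / 2 : ℝ) ^ (n + m)) atTop (𝓝 (s - 0)) := by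
      refine tendsto_const_nhds.sub ?_
      have := (tendsto_pow_atTop_nhds_zero_of_lt_one (r := (1 / 2 : ℝ)) (by norm_num)
        (by norm_num)).comp (tendsto_add_atTop_nat n)
      refine this.congr fun m => ?_
      simp [add_comm]
    rw [sub_zero] at h2
    exact le_of_tendsto' h2 h1
  refine ⟨B, hBm, hBanti, hBμ, ?_⟩
  intro ε hε
  obtain ⟨d, hd, hdg⟩ := hslt ε hε
  refine ⟨d / 2, by positivity, fun E hE hEd => ?_⟩
  have h16 : ∀ᶠ n : ℕ in atTop, (1 / 16 : ℝ) ^ n ≤ d / 2 := by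
    have := (tendsto_pow_atTop_nhds_zero_of_lt_one (r := (1 / 16 : ℝ)) (by norm_num)
        (by norm_num)).eventually (gt_mem_nhds (show (0 : ℝ) < d / 2 by positivity))
    filter_upwards [this] with n hn using hn.le
  filter_upwards [h16] with n hn
  have h1 : ν ((E \ B n) ∪ B n) = ν (E \ B n) + ν (B n) :=
    hadd _ _ (hE.diff (hBm n)) (hBm n) disjoint_sdiff_left
  have h2 : ν ((E \ B n) ∪ B n) ≤ g d := by
    refine hgle d _ ((hE.diff (hBm n)).union (hBm n)) ?_
    calc μ ((E \ B n) ∪ B n) ≤ μ (E \ B n) + μ (B n) := measure_union_le _ _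
      _ ≤ ENNReal.ofReal (d / 2) + ENNReal.ofReal ((1 / 16) ^ n) :=
          add_le_add ((measure_mono sdiff_subset).trans hEd) (hBμ n)
      _ ≤ ENNReal.ofReal (d / 2) + ENNReal.ofReal (d / 2) :=
          add_le_add le_rfl (ENNReal.ofReal_le_ofReal hn)
      _ = ENNReal.ofReal d := by
          rw [← ENNReal.ofReal_add (by positivity) (by positivity)]
          congr 1; ring
  have h3 := hBs n
  linarith

/-! ### Singular part -/

/-- singular part with respect to the sets `B n` -/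
def sp (l : (X → ℂ) → ℂ) (B : ℕ → Set X) (u : X → ℂ) : ℂ :=
  limUnder atTop (fun n => l ((B n).indicator u))

/-- the other part -/
def ap (l : (X → ℂ) → ℂ) (B : ℕ → Set X) (u : X → ℂ) : ℂ := l u - sp l B u

/-- absolute continuity -/
def AC (μ : Measure X) (l : (X → ℂ) → ℂ) : Prop :=
  ∀ ε : ℝ, 0 < ε → ∃ δ : ℝ, 0 < δ ∧ ∀ E, MeasurableSet E → μ E ≤ ENNReal.ofReal δ → tv μ l E ≤ ε

section
variable {N : ℝ} {l : (X → ℂ) → ℂ} {B : ℕ → Set X}

lemma tv_tendsto (h : Fnl μ N l) (hB : Antitone B) :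
    ∃ b, Tendsto (fun n => tv μ l (B n)) atTop (𝓝 b) ∧ ∀ n, b ≤ tv μ l (B n) := by
  have hm : Antitone (fun n => tv μ l (B n)) := fun m n hmn => tv_mono h (hB hmn)
  have hb : BddBelow (range fun n => tv μ l (B n)) := ⟨0, by rintro _ ⟨n, rfl⟩; exact tv_nonneg h _⟩
  exact ⟨_, tendsto_atTop_ciInf hm hb, fun n => ciInf_le hb n⟩

lemma sp_tendsto (h : Fnl μ N l) (hBm : ∀ n, MeasurableSet (B n)) (hB : Antitone B) {u : X → ℂ}
    (hu : BM μ u) : Tendsto (fun n => l ((B n).indicator u)) atTop (𝓝 (sp l B u)) := by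
  obtain ⟨b, hb, hbl⟩ := tv_tendsto h hB
  obtain ⟨C, hC0, hC⟩ := hu.exists_nonneg
  have hc : CauchySeq (fun n => l ((B n).indicator u)) := by
    refine cauchySeq_of_le_tendsto_0' (fun n => C * (tv μ l (B n) - b)) ?_ ?_
    · intro n m hnm
      rw [dist_eq_norm, ← h.sub (hu.indicator (hBm n)) (hu.indicator (hBm m))]
      have e : (B n).indicator u - (B m).indicator u = (B n \ B m).indicator u := by
        funext x
        rw [Pi.sub_apply]
        by_cases h1 : x ∈ B n
        · by_cases h2 : x ∈ B m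
          · rw [indicator_of_mem h1, indicator_of_mem h2, indicator_of_notMem (by simp [h2])]
            ring
          · rw [indicator_of_mem h1, indicator_of_notMem h2,
              indicator_of_mem (show x ∈ B n \ B m from ⟨h1, h2⟩)]
            ring
        · have h2 : x ∉ B m := fun h2 => h1 (hB hnm h2)
          rw [indicator_of_notMem h1, indicator_of_notMem h2, indicator_of_notMem (by simp [h1])]
          ring
      rw [e]
      refine (tv_bound h (hu.indicator ((hBm n).diff (hBm m))) hC0 (E := B n \ B m) ?_).trans ?_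
      · filter_upwards [hC] with x hx
        by_cases h1 : x ∈ B n \ B m
        · rw [indicator_of_mem h1, indicator_of_mem h1]; exact hx
        · rw [indicator_of_notMem h1, indicator_of_notMem h1]; simp
      · rw [tv_diff h (hBm n) (hBm m) (hB hnm)]
        exact mul_le_mul_of_nonneg_left (by linarith [hbl m]) hC0
    · have : Tendsto (fun n => C * (tv μ l (B n) - b)) atTop (𝓝 (C * (b - b))) :=
        (hb.sub_const b).const_mul C
      simpa using this
  obtain ⟨a, ha⟩ := cauchySeq_tendsto_of_complete hc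
  unfold sp
  rw [ha.limUnder_eq]
  exact ha

lemma ap_tendsto (h : Fnl μ N l) (hBm : ∀ n, MeasurableSet (B n)) (hB : Antitone B) {u : X → ℂ}
    (hu : BM μ u) : Tendsto (fun n => l ((B n)ᶜ.indicator u)) atTop (𝓝 (ap l B u)) := by
  have h1 := (sp_tendsto h hBm hB hu).const_sub (l u)
  refine h1.congr fun n => ?_
  rw [← h.sub hu (hu.indicator (hBm n))]
  congr 1
  rw [indicator_compl]

lemma sp_fnl (h : Fnl μ N l) (hBm : ∀ n, MeasurableSet (B n)) (hB : Antitone B) :
    Fnl μ N (sp l B) where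
  add := by
    intro u v hu hv
    refine tendsto_nhds_unique (sp_tendsto h hBm hB (hu.add hv)) ?_
    refine ((sp_tendsto h hBm hB hu).add (sp_tendsto h hBm hB hv)).congr fun n => ?_
    rw [← h.add _ _ (hu.indicator (hBm n)) (hv.indicator (hBm n)), indicator_add']
  smul := by
    intro c u hu
    refine tendsto_nhds_unique (sp_tendsto h hBm hB (hu.smul c)) ?_
    refine ((sp_tendsto h hBm hB hu).const_mul c).congr fun n => ?_
    rw [← h.smul _ _ (hu.indicator (hBm n))]
    congr 1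
    funext x
    by_cases hx : x ∈ B n <;> simp [hx]
  bound := by
    intro C u hu hC hb
    refine le_of_tendsto (sp_tendsto h hBm hB hu).norm (Eventually.of_forall fun n => ?_)
    refine h.bound C _ (hu.indicator (hBm n)) hC ?_
    filter_upwards [hb] with x hx
    exact (norm_indicator_le_norm_self u x).trans hx

lemma ap_fnl (h : Fnl μ N l) (hBm : ∀ n, MeasurableSet (B n)) (hB : Antitone B) :
    Fnl μ N (ap l B) where
  add := by
    intro u v hu hv
    unfold ap
    rw [h.add u v hu hv, (sp_fnl h hBm hB).add u v hu hv]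
    ring
  smul := by
    intro c u hu
    unfold ap
    rw [h.smul c u hu, (sp_fnl h hBm hB).smul c u hu]
    ring
  bound := by
    intro C u hu hC hb
    refine le_of_tendsto (ap_tendsto h hBm hB hu).norm (Eventually.of_forall fun n => ?_)
    refine h.bound C _ (hu.indicator (hBm n).compl) hC ?_
    filter_upwards [hb] with x hx
    exact (norm_indicator_le_norm_self u x).trans hx

lemma sp_local (h : Fnl μ N l) (hBm : ∀ n, MeasurableSet (B n)) (hB : Antitone B) {u : X → ℂ}
    (hu : BM μ u) (m : ℕ) : sp l B ((B m).indicator u) = sp l B u := by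
  refine tendsto_nhds_unique (sp_tendsto h hBm hB (hu.indicator (hBm m))) ?_
  refine (sp_tendsto h hBm hB hu).congr' ?_
  filter_upwards [eventually_ge_atTop m] with n hn
  congr 1
  rw [indicator_indicator, inter_eq_left.2 (hB hn)]

lemma sp_bound_on (h : Fnl μ N l) (hBm : ∀ n, MeasurableSet (B n)) (hB : Antitone B) {u : X → ℂ}
    (hu : BM μ u) (m : ℕ) {C : ℝ} (hC : 0 ≤ C) (hb : ∀ᵐ x ∂μ, x ∈ B m → ‖u x‖ ≤ C) :
    ‖sp l B u‖ ≤ N * C := by
  rw [← sp_local h hBm hB hu m]
  refine (sp_fnl h hBm hB).bound C _ (hu.indicator (hBm m)) hC ?_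
  filter_upwards [hb] with x hx
  by_cases h1 : x ∈ B m
  · rw [indicator_of_mem h1]; exact hx h1
  · rw [indicator_of_notMem h1]; simpa using hC

lemma ap_ac (h : Fnl μ N l) (hBm : ∀ n, MeasurableSet (B n)) (hB : Antitone B)
    (hex : ∀ ε : ℝ, 0 < ε → ∃ δ : ℝ, 0 < δ ∧ ∀ E, MeasurableSet E → μ E ≤ ENNReal.ofReal δ →
      ∀ᶠ n in atTop, tv μ l (E \ B n) ≤ ε) : AC μ (ap l B) := by
  intro ε hε
  obtain ⟨δ, hδ, hE⟩ := hex ε hε
  refine ⟨δ, hδ, fun E hEm hEδ => tv_le fun u hu hb => ?_⟩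
  refine le_of_tendsto (ap_tendsto h hBm hB hu).norm ?_
  filter_upwards [hE E hEm hEδ] with n hn
  refine le_trans (le_tv h (hu.indicator (hBm n).compl) ?_) hn
  filter_upwards [hb] with x hx
  by_cases h1 : x ∈ B n
  · rw [indicator_of_notMem (by simpa using h1), norm_zero]
    exact indicator_nonneg (fun _ _ => zero_le_one) x
  · rw [indicator_of_mem (show x ∈ (B n)ᶜ from h1)]
    by_cases h2 : x ∈ E
    · rw [indicator_of_mem (show x ∈ E \ B n from ⟨h2, h1⟩)]
      rwa [indicator_of_mem h2] at hx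
    · rw [indicator_of_notMem (show x ∉ E \ B n from fun h => h2 h.1)]
      rwa [indicator_of_notMem h2] at hx

/-- bounded convergence for absolutely continuous functionals -/
lemma ac_conv [IsFiniteMeasure μ] (h : Fnl μ N l) (hac : AC μ l) {u : ℕ → X → ℂ} {v : X → ℂ}
    (hu : ∀ k, BM μ (u k)) (hv : BM μ v) {C : ℝ} (hC : ∀ k, ∀ᵐ x ∂μ, ‖u k x‖ ≤ C)
    (hC' : ∀ᵐ x ∂μ, ‖v x‖ ≤ C)
    (hlim : ∀ᵐ x ∂μ, Tendsto (fun k => u k x) atTop (𝓝 (v x))) :
    Tendsto (fun k => l (u k)) atTop (𝓝 (l v)) := by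
  have hmeas : TendstoInMeasure μ u atTop v :=
    tendstoInMeasure_of_tendsto_ae (fun k => (hu k).1) hlim
  have hN := h.nonneg
  rw [tendsto_iff_norm_sub_tendsto_zero, Metric.tendsto_atTop]
  intro ε hε
  set C' : ℝ := max C 0 with hC'def
  have hC'0 : 0 ≤ C' := le_max_right _ _
  set η : ℝ := ε / (2 * C' + N + 1) / 2 with hη
  have hη0 : 0 < η := by positivity
  have hηε : 2 * C' * η + N * η < ε := by
    have h1 : (2 * C' + N + 1) * (2 * η) = ε := by rw [hη]; field_simp
    nlinarith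
  obtain ⟨δ, hδ, hE⟩ := hac η hη0
  have h2 := (tendstoInMeasure_iff_norm.1 hmeas) η hη0
  have h3 : ∀ᶠ k in atTop, μ {x | η ≤ ‖u k x - v x‖} < ENNReal.ofReal δ :=
    h2.eventually (gt_mem_nhds (ENNReal.ofReal_pos.2 hδ))
  obtain ⟨K, hK⟩ := eventually_atTop.1 h3
  refine ⟨K, fun k hk => ?_⟩
  have h4 := hK k hk
  set E : Set X := toMeasurable μ {x | η ≤ ‖u k x - v x‖} with hEdef
  have hEm : MeasurableSet E := measurableSet_toMeasurable _ _
  have hEμ : μ E ≤ ENNReal.ofReal δ := by rw [hEdef, measure_toMeasurable]; exact h4.le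
  have hsub := (hu k).sub hv
  have hsplit : u k - v = E.indicator (u k - v) + Eᶜ.indicator (u k - v) :=
    (indicator_self_add_compl E _).symm
  have b1 : ‖l (E.indicator (u k - v))‖ ≤ 2 * C' * tv μ l E := by
    refine tv_bound h (hsub.indicator hEm) (by positivity) ?_
    filter_upwards [hC k, hC'] with x a b
    by_cases hx : x ∈ E
    · rw [indicator_of_mem hx, indicator_of_mem hx, Pi.sub_apply]
      refine (norm_sub_le _ _).trans ?_
      have := le_max_left C 0
      linarith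
    · rw [indicator_of_notMem hx, indicator_of_notMem hx]; simp
  have b2 : ‖l (Eᶜ.indicator (u k - v))‖ ≤ N * η := by
    refine h.bound η _ (hsub.indicator hEm.compl) hη0.le ?_
    refine Eventually.of_forall fun x => ?_
    by_cases hx : x ∈ E
    · rw [indicator_of_notMem (by simpa using hx)]; simpa using hη0.le
    · rw [indicator_of_mem (show x ∈ Eᶜ from hx)]
      by_contra hcon
      push Not at hcon
      exact hx (subset_toMeasurable μ _ hcon.le)
  have b3 : ‖l (u k) - l v‖ ≤ 2 * C' * tv μ l E + N * η := by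
    rw [← h.sub (hu k) hv, hsplit, h.add _ _ (hsub.indicator hEm) (hsub.indicator hEm.compl)]
    exact (norm_add_le _ _).trans (add_le_add b1 b2)
  have b4 := hE E hEm hEμ
  rw [Real.dist_eq, sub_zero, abs_of_nonneg (norm_nonneg _)]
  have b5 : 2 * C' * tv μ l E ≤ 2 * C' * η := mul_le_mul_of_nonneg_left b4 (by positivity)
  linarith

/-- a functional which attains its norm at a function of modulus less than one is singular -/
theorem attain [IsFiniteMeasure μ] (h : Fnl μ 1 l) (hBm : ∀ n, MeasurableSet (B n))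
    (hB : Antitone B) (hac : AC μ (ap l B)) {f : X → ℂ} (hfm : Measurable f) (hf : BM μ f)
    (hf1 : ∀ᵐ x ∂μ, ‖f x‖ < 1) (hlf : l f = 1) {u : X → ℂ} (hu : BM μ u) : ap l B u = 0 := by
  obtain ⟨b, hb, hbl⟩ := tv_tendsto h hB
  have hA := ap_fnl h hBm hB
  set a : ℝ := tv μ (ap l B) univ with ha
  have h1 : ‖sp l B f‖ ≤ b := by
    refine le_of_tendsto_of_tendsto (sp_tendsto h hBm hB hf).norm hb
      (Eventually.of_forall fun n => ?_)
    refine le_tv h (hf.indicator (hBm n)) ?_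
    filter_upwards [hf1] with x hx
    by_cases h1 : x ∈ B n
    · rw [indicator_of_mem h1, indicator_of_mem h1]; exact hx.le
    · rw [indicator_of_notMem h1, indicator_of_notMem h1]; simp
  have h2 : a ≤ 1 - b := by
    refine tv_le fun v hv hvb => ?_
    refine le_of_tendsto_of_tendsto (ap_tendsto h hBm hB hv).norm (hb.const_sub 1)
      (Eventually.of_forall fun n => ?_)
    have e1 : ‖l ((B n)ᶜ.indicator v)‖ ≤ tv μ l (B n)ᶜ := by
      refine le_tv h (hv.indicator (hBm n).compl) ?_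
      filter_upwards [hvb] with x hx
      rw [indicator_of_mem (mem_univ x)] at hx
      by_cases h1 : x ∈ (B n)ᶜ
      · rw [indicator_of_mem h1, indicator_of_mem h1]; exact hx
      · rw [indicator_of_notMem h1, indicator_of_notMem h1]; simp
    have e2 := tv_diff h MeasurableSet.univ (hBm n) (subset_univ _)
    rw [← compl_eq_univ_sdiff] at e2
    have e3 := tv_le_N h univ
    change ‖l ((B n)ᶜ.indicator v)‖ ≤ 1 - tv μ l (B n)
    linarith
  have h3 : a ≤ ‖ap l B f‖ := by
    have e1 : ‖l f‖ ≤ ‖ap l B f‖ + ‖sp l B f‖ := by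
      have : l f = ap l B f + sp l B f := by unfold ap; ring
      rw [this]; exact norm_add_le _ _
    rw [hlf, norm_one] at e1
    linarith
  set E : ℕ → Set X := fun n => {x | 1 - 1 / ((n : ℝ) + 1) < ‖f x‖} with hE
  have hEm : ∀ n, MeasurableSet (E n) := fun n => measurableSet_lt measurable_const hfm.norm
  have hEanti : Antitone E := by
    intro m n hmn x hx
    have h4 : (1 : ℝ) / ((n : ℝ) + 1) ≤ 1 / ((m : ℝ) + 1) := by
      apply one_div_le_one_div_of_le (by positivity)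
      have : (m : ℝ) ≤ n := by exact_mod_cast hmn
      linarith
    have h5 : 1 - 1 / ((n : ℝ) + 1) < ‖f x‖ := hx
    change 1 - 1 / ((m : ℝ) + 1) < ‖f x‖
    linarith
  have hEμ : Tendsto (fun n => μ (E n)) atTop (𝓝 0) := by
    have h4 := tendsto_measure_iInter_atTop (μ := μ) (fun n => (hEm n).nullMeasurableSet) hEanti
      ⟨0, measure_ne_top _ _⟩
    have h5 : μ (⋂ n, E n) = 0 := by
      refine measure_mono_null (fun x hx => ?_) hf1
      rw [mem_iInter] at hx
      have h6 : 1 ≤ ‖f x‖ := by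
        have h7 : Tendsto (fun n : ℕ => 1 - 1 / ((n : ℝ) + 1)) atTop (𝓝 1) := by
          have := (tendsto_one_div_add_atTop_nhds_zero_nat (𝕜 := ℝ)).const_sub 1
          simpa using this
        exact le_of_tendsto' h7 fun n => (hx n).le
      exact not_lt.2 h6
    rw [h5] at h4
    exact h4
  have hx : ∀ n, a ≤ tv μ (ap l B) (E n) := by
    intro n
    have hn : (0 : ℝ) < (n : ℝ) + 1 := by positivity
    have hn1 : (0 : ℝ) ≤ 1 - 1 / ((n : ℝ) + 1) := by
      rw [sub_nonneg, div_le_one hn]; linarith [(Nat.cast_nonneg n : (0 : ℝ) ≤ n)]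
    have hsplit : f = (E n).indicator f + (E n)ᶜ.indicator f := (indicator_self_add_compl _ _).symm
    have b1 : ‖ap l B ((E n).indicator f)‖ ≤ tv μ (ap l B) (E n) := by
      refine le_tv hA (hf.indicator (hEm n)) ?_
      filter_upwards [hf1] with x hx
      by_cases h1 : x ∈ E n
      · rw [indicator_of_mem h1, indicator_of_mem h1]; exact hx.le
      · rw [indicator_of_notMem h1, indicator_of_notMem h1]; simp
    have b2 : ‖ap l B ((E n)ᶜ.indicator f)‖ ≤ (1 - 1 / ((n : ℝ) + 1)) * tv μ (ap l B) (E n)ᶜ := by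
      refine tv_bound hA (hf.indicator (hEm n).compl) hn1 ?_
      refine Eventually.of_forall fun x => ?_
      by_cases h1 : x ∈ E n
      · rw [indicator_of_notMem (by simpa using h1), indicator_of_notMem (by simpa using h1)]; simp
      · rw [indicator_of_mem (show x ∈ (E n)ᶜ from h1), indicator_of_mem (show x ∈ (E n)ᶜ from h1)]
        exact not_lt.1 h1
    have b3 : ‖ap l B f‖ ≤ tv μ (ap l B) (E n) +
        (1 - 1 / ((n : ℝ) + 1)) * tv μ (ap l B) (E n)ᶜ := by
      rw [hsplit, hA.add _ _ (hf.indicator (hEm n)) (hf.indicator (hEm n).compl)]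
      exact (norm_add_le _ _).trans (add_le_add b1 b2)
    have b4 := tv_diff hA MeasurableSet.univ (hEm n) (subset_univ _)
    rw [← compl_eq_univ_sdiff, ← ha] at b4
    rw [b4] at b3
    have b5 : a ≤ tv μ (ap l B) (E n) +
        (1 - 1 / ((n : ℝ) + 1)) * (a - tv μ (ap l B) (E n)) := h3.trans b3
    have b6 : (1 / ((n : ℝ) + 1)) * a ≤ (1 / ((n : ℝ) + 1)) * tv μ (ap l B) (E n) := by
      linarith
    exact le_of_mul_le_mul_left b6 (by positivity)
  have ha0 : a ≤ 0 := by
    refine le_of_forall_pos_le_add fun ε hε => ?_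
    obtain ⟨δ, hδ, hδE⟩ := hac ε hε
    obtain ⟨n, hn⟩ := (hEμ.eventually (gt_mem_nhds (ENNReal.ofReal_pos.2 hδ))).exists
    have := (hx n).trans (hδE _ (hEm n) hn.le)
    linarith
  obtain ⟨C, hC0, hC⟩ := hu.exists_nonneg
  have h6 : ‖ap l B u‖ ≤ C * a := tv_bound hA hu hC0 (by simpa using hC)
  have h7 : C * a ≤ 0 := mul_nonpos_of_nonneg_of_nonpos hC0 ha0
  exact norm_le_zero_iff.1 (h6.trans h7)

end

/-- simultaneous decomposition of a finite family -/
theorem decompose [IsFiniteMeasure μ] {ι : Type} [Fintype ι] (l : ι → (X → ℂ) → ℂ) (N : ι → ℝ)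
    (h : ∀ i, Fnl μ (N i) (l i)) : ∃ B : ℕ → Set X, (∀ n, MeasurableSet (B n)) ∧ Antitone B ∧
      (∀ n, μ (B n) ≤ ENNReal.ofReal ((1 / 16) ^ n)) ∧ ∀ i, AC μ (ap (l i) B) := by
  obtain ⟨B, h1, h2, h3, h4⟩ := exhaust (μ := μ) (fun E => ∑ i, tv μ (l i) E) (∑ i, N i)
    (fun E => Finset.sum_nonneg fun i _ => tv_nonneg (h i) E)
    (fun E => Finset.sum_le_sum fun i _ => tv_le_N (h i) E)
    (fun E F hEF => Finset.sum_le_sum fun i _ => tv_mono (h i) hEF)
    (fun E F hE hF hd => by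
      rw [← Finset.sum_add_distrib]
      exact Finset.sum_congr rfl fun i _ => tv_union (h i) hE hF hd)
  refine ⟨B, h1, h2, h3, fun i => ap_ac (h i) h1 h2 fun ε hε => ?_⟩
  obtain ⟨δ, hδ, hE⟩ := h4 ε hε
  refine ⟨δ, hδ, fun E hEm hEδ => ?_⟩
  filter_upwards [hE E hEm hEδ] with n hn
  refine le_trans ?_ hn
  exact Finset.single_le_sum (f := fun i => tv μ (l i) (E \ B n))
    (fun j _ => tv_nonneg (h j) _) (Finset.mem_univ i)

end Pool.Agent.R422.EX
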