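import Mathlib

/-!
# The space `H^∞`
-/

set_option autoImplicit false

open scoped ENNReal Real
open MeasureTheory

noncomputable section

namespace Pool.Agent.R422.EX

instance factTwoPi : Fact (0 < 2 * π) := Fact.mk Real.two_pi_pos

/-- the unit circle, as `ℝ / 2πℤ` (the point `θ` stands for `e^{iθ}`) -/
abbrev TC : Type := AddCircle (2 * π)

/-- normalised Haar measure on the circle -/
abbrev mT : Measure TC := AddCircle.haarAddCircle

lemma fourierCoeff_add_top (f g : Lp ℂ ⊤ mT) (k : ℤ) :
    fourierCoeff (f + g : Lp ℂ ⊤ mT) k = fourierCoeff f k + fourierCoeff g k := by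
  have hi : ∀ f : Lp ℂ ⊤ mT, Integrable f mT := fun f => (Lp.memLp f).integrable le_top
  have h1 : fourierCoeff (f + g : Lp ℂ ⊤ mT) k = fourierCoeff ((f : TC → ℂ) + (g : TC → ℂ)) k := by
    unfold fourierCoeff
    refine integral_congr_ae ?_
    filter_upwards [Lp.coeFn_add f g] with t ht
    rw [ht]
  rw [h1]
  exact congrFun (fourierCoeff.add (hi f) (hi g)) k

lemma fourierCoeff_smul_top (c : ℂ) (f : Lp ℂ ⊤ mT) (k : ℤ) :
    fourierCoeff (c • f : Lp ℂ ⊤ mT) k = c * fourierCoeff f k := by
  have h1 : fourierCoeff (c • f : Lp ℂ ⊤ mT) k = fourierCoeff (c • (f : TC → ℂ)) k := by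
    unfold fourierCoeff
    refine integral_congr_ae ?_
    filter_upwards [Lp.coeFn_smul c f] with t ht
    rw [ht]
  rw [h1]
  have := fourierCoeff.const_smul (f : TC → ℂ) c k
  rw [smul_eq_mul] at this
  exact this

/-- `H^∞`: the functions in `L^∞` of the circle whose Fourier coefficients of negative index
vanish; `fourierCoeff f k = ∫ e^{-ikθ} f(θ) dm(θ)` -/
def Hinf : Submodule ℂ (Lp ℂ ⊤ mT) where
  carrier := {f | ∀ k : ℤ, k < 0 → fourierCoeff f k = 0}
  add_mem' := by
    intro f g hf hg k hk
    rw [fourierCoeff_add_top, hf k hk, hg k hk, add_zero]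
  zero_mem' := by
    intro k _
    have := fourierCoeff_smul_top 0 0 k
    simpa using this
  smul_mem' := by
    intro c f hf k hk
    rw [fourierCoeff_smul_top, hf k hk, mul_zero]

end Pool.Agent.R422.EX
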