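import Pool.Agent.R422.EX.Tool
import Pool.Agent.R422.EX.Dec

/-!
# Functionals on the space of classes, and extensions
-/

set_option autoImplicit false

open scoped Topology ENNReal Real ComplexConjugate
open MeasureTheory Filter Set Complex

noncomputable section

namespace Pool.Agent.R422.EX

open Classical in
/-- the class of a function -/
def toL (u : TC → ℂ) : Lp ℂ ⊤ mT := if h : MemLp u ⊤ mT then h.toLp u else 0

lemma toL_coe {u : TC → ℂ} (hu : BM mT u) : (toL u : TC → ℂ) =ᵐ[mT] u := by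
  unfold toL
  rw [dif_pos (hu.memLp ⊤)]
  exact (hu.memLp ⊤).coeFn_toLp

lemma toL_add {u v : TC → ℂ} (hu : BM mT u) (hv : BM mT v) : toL (u + v) = toL u + toL v := by
  apply Lp.ext
  filter_upwards [toL_coe hu, toL_coe hv, toL_coe (hu.add hv), Lp.coeFn_add (toL u) (toL v)] with
    x h1 h2 h3 h4
  rw [h3, h4, Pi.add_apply, Pi.add_apply, h1, h2]

lemma toL_smul {u : TC → ℂ} (hu : BM mT u) (c : ℂ) : toL (c • u) = c • toL u := by
  apply Lp.ext
  filter_upwards [toL_coe hu, toL_coe (hu.smul c), Lp.coeFn_smul c (toL u)] with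
    x h1 h3 h4
  rw [h3, h4, Pi.smul_apply, Pi.smul_apply, h1]

lemma norm_toL_le {u : TC → ℂ} {C : ℝ} (hC : 0 ≤ C) (hu : BM mT u) (h : ∀ᵐ x ∂mT, ‖u x‖ ≤ C) :
    ‖toL u‖ ≤ C := by
  have h1 := Lp.norm_le_of_ae_bound (f := toL u) hC (by
    filter_upwards [toL_coe hu, h] with x h1 h2
    rw [h1]; exact h2)
  simpa using h1

lemma lp_le (x : Lp ℂ ⊤ mT) : ∀ᵐ t ∂mT, ‖x t‖ ≤ ‖x‖ := by
  have h1 := ae_le_eLpNormEssSup (f := (x : TC → ℂ)) (μ := mT)
  filter_upwards [h1] with t ht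
  rw [Lp.norm_def, eLpNorm_exponent_top]
  have h2 : eLpNormEssSup (x : TC → ℂ) mT ≠ ⊤ := by
    have := Lp.eLpNorm_ne_top x
    rwa [eLpNorm_exponent_top] at this
  have h3 := ENNReal.toReal_mono h2 ht
  simpa using h3

lemma lp_bm (x : Lp ℂ ⊤ mT) : BM mT x := ⟨Lp.aestronglyMeasurable x, ‖x‖, lp_le x⟩

lemma toL_self (x : Lp ℂ ⊤ mT) : toL x = x := Lp.ext (toL_coe (lp_bm x))

lemma fnl_dual (L : StrongDual ℂ (Lp ℂ ⊤ mT)) : Fnl mT ‖L‖ (fun u => L (toL u)) where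
  add := fun u v hu hv => by rw [toL_add hu hv, map_add]
  smul := fun c u hu => by rw [toL_smul hu, map_smul, smul_eq_mul]
  bound := fun C u hu hC h => (L.le_opNorm _).trans
    (mul_le_mul_of_nonneg_left (norm_toL_le hC hu h) (norm_nonneg _))

lemma Fnl.mono {N M : ℝ} {l : (TC → ℂ) → ℂ} (h : Fnl mT N l) (hNM : N ≤ M) : Fnl mT M l where
  add := h.add
  smul := h.smul
  bound := fun C u hu hC hb => (h.bound C u hu hC hb).trans (mul_le_mul_of_nonneg_right hNM hC)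

lemma hi_iff (x : Lp ℂ ⊤ mT) : HI x ↔ x ∈ Hinf :=
  ⟨fun h => h.2, fun h => ⟨lp_bm x, h⟩⟩

theorem ext_HI (θ : (TC → ℂ) → ℂ) (N : ℝ) (hN : 0 ≤ N)
    (hadd : ∀ u v, HI u → HI v → θ (u + v) = θ u + θ v)
    (hsmul : ∀ (c : ℂ) u, HI u → θ (c • u) = c * θ u)
    (hb : ∀ (C : ℝ) u, HI u → 0 ≤ C → (∀ᵐ x ∂mT, ‖u x‖ ≤ C) → ‖θ u‖ ≤ N * C) :
    ∃ l, Fnl mT N l ∧ ∀ u, HI u → l u = θ u := by
  have hcongr : ∀ u v : TC → ℂ, HI u → u =ᵐ[mT] v → θ u = θ v := by
    intro u v hu e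
    have hv := hu.congr e
    have h1 : θ (u + (-1 : ℂ) • v) = θ u + (-1) * θ v := by
      rw [hadd _ _ hu (hv.smul _), hsmul _ _ hv]
    have h2 := hb 0 (u + (-1 : ℂ) • v) (hu.add (hv.smul _)) le_rfl (by
      filter_upwards [e] with x hx
      rw [Pi.add_apply, Pi.smul_apply, hx]
      simp)
    rw [mul_zero, norm_le_zero_iff, h1] at h2
    linear_combination h2
  let T0 : Hinf →ₗ[ℂ] ℂ :=
    { toFun := fun x => θ (x : Lp ℂ ⊤ mT)
      map_add' := by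
        intro x y
        have h1 := hadd _ _ ((hi_iff (x : Lp ℂ ⊤ mT)).2 x.2) ((hi_iff (y : Lp ℂ ⊤ mT)).2 y.2)
        rw [← h1]
        exact hcongr _ _ ((hi_iff ((x + y : Hinf) : Lp ℂ ⊤ mT)).2 (x + y).2)
          (Lp.coeFn_add (x : Lp ℂ ⊤ mT) (y : Lp ℂ ⊤ mT))
      map_smul' := by
        intro c x
        have h1 := hsmul c _ ((hi_iff (x : Lp ℂ ⊤ mT)).2 x.2)
        rw [RingHom.id_apply, smul_eq_mul, ← h1]
        exact hcongr _ _ ((hi_iff ((c • x : Hinf) : Lp ℂ ⊤ mT)).2 (c • x).2)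
          (Lp.coeFn_smul c (x : Lp ℂ ⊤ mT)) }
  let T : StrongDual ℂ Hinf := T0.mkContinuous N (fun x =>
    hb ‖x‖ _ ((hi_iff (x : Lp ℂ ⊤ mT)).2 x.2) (norm_nonneg _) (lp_le (x : Lp ℂ ⊤ mT)))
  obtain ⟨g, hg, hgn⟩ := exists_extension_norm_eq Hinf T
  have hT : ‖T‖ ≤ N := T0.mkContinuous_norm_le hN _
  refine ⟨fun u => g (toL u), (fnl_dual g).mono (hgn.le.trans hT), fun u hu => ?_⟩
  have h1 : HI (toL u) := hu.congr (toL_coe hu.1).symm
  have h2 := hg ⟨toL u, (hi_iff _).1 h1⟩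
  exact h2.trans (hcongr _ _ h1 (toL_coe hu.1))

/-- the multipliers which annihilate the singular parts -/
theorem mult (B : ℕ → Set TC) (hBm : ∀ n, MeasurableSet (B n)) (hB : Antitone B)
    (hμ : ∀ n, mT (B n) ≤ ENNReal.ofReal ((1 / 16) ^ n)) :
    ∃ ω : ℕ → TC → ℂ, (∀ k, HI (ω k)) ∧
      (∀ k, ∀ᵐ x ∂mT, ‖ω k x‖ ^ 2 + ‖1 - ω k x‖ ^ 2 ≤ 1) ∧
      (∀ᵐ x ∂mT, Tendsto (fun k => ω k x) atTop (𝓝 0)) ∧
      ∀ (N : ℝ) (l : (TC → ℂ) → ℂ), Fnl mT N l → ∀ (k : ℕ) (u : TC → ℂ), BM mT u →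
        sp l B ((fun x => 1 - ω k x) * u) = 0 := by
  obtain ⟨F, hFm, hF0, hFn, hFH⟩ := tool B hBm hB hμ
  refine ⟨fun k x => F x / ((k + 1 : ℕ) + F x), fun k => hFH (k + 1) (by omega), ?_, ?_, ?_⟩
  · intro k
    filter_upwards [hF0] with x hx
    have h0 : ((k + 1 : ℕ) : ℂ) + F x ≠ 0 := by
      intro h
      have := congrArg re h
      simp at this
      have h1 : (0 : ℝ) ≤ k := Nat.cast_nonneg k
      linarith
    have h1 : 1 - F x / ((k + 1 : ℕ) + F x) = ((k + 1 : ℕ) : ℂ) / ((k + 1 : ℕ) + F x) := by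
      field_simp
      ring
    rw [h1, norm_div, norm_div, div_pow, div_pow, ← add_div]
    refine div_le_one_of_le₀ ?_ (by positivity)
    rw [← normSq_eq_norm_sq, ← normSq_eq_norm_sq, ← normSq_eq_norm_sq, normSq_apply, normSq_apply,
      normSq_apply]
    simp
    have h2 : (0 : ℝ) ≤ k := Nat.cast_nonneg k
    nlinarith
  · filter_upwards [hF0] with x hx
    have h1 : Tendsto (fun k : ℕ => ‖F x‖ / ((k : ℝ) + 1)) atTop (𝓝 0) := by
      have := (tendsto_const_div_atTop_nhds_zero_nat ‖F x‖).comp (tendsto_add_atTop_nat 1)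
      refine this.congr fun k => ?_
      simp
    refine squeeze_zero_norm (fun k => ?_) h1
    rw [norm_div]
    have h3 : (k : ℝ) + 1 ≤ ‖((k + 1 : ℕ) : ℂ) + F x‖ := by
      refine le_trans ?_ (re_le_norm _)
      simp
      exact hx
    exact div_le_div_of_nonneg_left (norm_nonneg _) (by positivity) h3
  · intro N l hl k u hu
    obtain ⟨C, hC0, hC⟩ := hu.exists_nonneg
    have hω : BM mT (fun x => 1 - F x / ((k + 1 : ℕ) + F x)) :=
      (BM.const 1).sub (hFH (k + 1) (by omega)).1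
    have h1 : ∀ m : ℕ, ‖sp l B ((fun x => 1 - F x / ((k + 1 : ℕ) + F x)) * u)‖ ≤
        N * ((k + 1) * C / ((m : ℝ) + 1)) := by
      intro m
      refine sp_bound_on hl hBm hB (hω.mul hu) m (by positivity) ?_
      filter_upwards [hC, hF0, hFn m] with x a1 a2 a3 hx
      have a4 := a3 hx
      have h0 : ((k + 1 : ℕ) : ℂ) + F x ≠ 0 := by
        intro h
        have := congrArg re h
        simp at this
        have h1 : (0 : ℝ) ≤ k := Nat.cast_nonneg k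
        linarith
      have h1 : 1 - F x / ((k + 1 : ℕ) + F x) = ((k + 1 : ℕ) : ℂ) / ((k + 1 : ℕ) + F x) := by
        field_simp
        ring
      rw [Pi.mul_apply, norm_mul, h1, norm_div]
      have h3 : (m : ℝ) + 1 ≤ ‖((k + 1 : ℕ) : ℂ) + F x‖ := by
        refine le_trans ?_ (re_le_norm _)
        simp
        have h1 : (0 : ℝ) ≤ k := Nat.cast_nonneg k
        linarith
      have h4 : ‖((k + 1 : ℕ) : ℂ)‖ = (k : ℝ) + 1 := by
        rw [norm_natCast]; push_cast; ring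
      rw [h4]
      have h5 : ((k : ℝ) + 1) / ‖((k + 1 : ℕ) : ℂ) + F x‖ ≤ ((k : ℝ) + 1) / ((m : ℝ) + 1) :=
        div_le_div_of_nonneg_left (by positivity) (by positivity) h3
      calc ((k : ℝ) + 1) / ‖((k + 1 : ℕ) : ℂ) + F x‖ * ‖u x‖
          ≤ ((k : ℝ) + 1) / ((m : ℝ) + 1) * C :=
            mul_le_mul h5 a1 (norm_nonneg _) (by positivity)
        _ = ((k : ℝ) + 1) * C / ((m : ℝ) + 1) := by ring
    have h2 : Tendsto (fun m : ℕ => N * ((k + 1) * C / ((m : ℝ) + 1))) atTop (𝓝 (N * 0)) := by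
      refine Tendsto.const_mul N ?_
      have := (tendsto_const_div_atTop_nhds_zero_nat (((k : ℝ) + 1) * C)).comp
        (tendsto_add_atTop_nat 1)
      refine this.congr fun m => ?_
      simp
    rw [mul_zero] at h2
    exact norm_le_zero_iff.1 (ge_of_tendsto' h2 h1)

end Pool.Agent.R422.EX
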