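import Pool.Agent.R422.EX.Main

/-!
# The main argument, end
-/

set_option autoImplicit false

open scoped Topology ENNReal Real ComplexConjugate
open MeasureTheory Filter Set Complex

noncomputable section

namespace Pool.Agent.R422.EX

/-- multiplication by a bounded holomorphic function -/
def mulHS (v : TC → ℂ) (hv : HI v) : HS →ₗ[ℂ] HS where
  toFun := fun u => ⟨v * u, (hv.mul u.2).1⟩
  map_add' := by
    intro u u'
    apply Subtype.ext
    show v * ((u : TC → ℂ) + u') = v * u + v * u'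
    ring
  map_smul' := by
    intro c u
    apply Subtype.ext
    show v * (c • (u : TC → ℂ)) = c • (v * (u : TC → ℂ))
    funext x
    simp only [Pi.mul_apply, Pi.smul_apply, smul_eq_mul]
    ring

theorem core {ι : Type} [Fintype ι] (φ : (TC → ℂ) → ℂ) (hφ : Fnl mT 1 φ)
    (l : ι → (TC → ℂ) → ℂ) (N : ι → ℝ) (hl : ∀ i, Fnl mT (N i) (l i))
    (f : TC → ℂ) (hfm : Measurable f) (hf : HI f) (hf1 : ∀ᵐ x ∂mT, ‖f x‖ < 1)
    (hφf : φ f = 1) (hlf : ∀ i, l i f = 0)
    (hexp : ∀ g, HI g → (∀ᵐ x ∂mT, ‖g x‖ ≤ 1) → (∀ i, l i g = 0) → φ g = 1 → g =ᵐ[mT] f) :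
    False := by
  obtain ⟨B, hBm, hB, hμ, hAC⟩ := decompose (μ := mT) (ι := Option ι)
    (fun o => o.elim φ l) (fun o => o.elim 1 N) (by rintro (_ | i); exacts [hφ, hl i])
  have hφs : ∀ u, BM mT u → φ u = sp φ B u := by
    intro u hu
    have := attain hφ hBm hB (hAC none) hfm hf.1 hf1 hφf hu
    unfold ap at this
    exact sub_eq_zero.1 this
  obtain ⟨ω, hωH, hω1, hω0, hωs⟩ := mult B hBm hB hμ
  have hτH : ∀ k, HI (fun x => 1 - ω k x) := by
    intro k
    have h1 := (hi_const 1).add ((hωH k).smul (-1))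
    refine h1.congr (Eventually.of_forall fun x => ?_)
    simp only [Pi.add_apply, Pi.smul_apply, smul_eq_mul]
    ring
  set w : ι → (TC → ℂ) → ℂ := fun i => ap (l i) B with hw
  have hwF : ∀ i, Fnl mT (N i) (w i) := fun i => ap_fnl (hl i) hBm hB
  have hwAC : ∀ i, AC mT (w i) := fun i => hAC (some i)
  let W : HS →ₗ[ℂ] (ι → ℂ) :=
    { toFun := fun u i => w i u
      map_add' := by
        intro u v
        funext i
        exact (hwF i).add u v (show HI (u : TC → ℂ) from u.2).1 (show HI (v : TC → ℂ) from v.2).1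
      map_smul' := by
        intro c u
        funext i
        exact (hwF i).smul c u (show HI (u : TC → ℂ) from u.2).1 }
  have hW : ∀ (u : HS) i, W u i = w i u := fun u i => rfl
  by_contra _
  refine caseB W w N hwF hwAC hW f hfm hf hf1 ?_
  rintro ⟨d, hd, g1, hg1, hg1f⟩
  obtain ⟨ρ, hρ, C, hC0, hC⟩ := lift W
  set P := W.rangeRestrict with hP
  have hPρ : ∀ y, P (ρ y) = y := fun y => Subtype.ext (hρ y)
  have hPw : ∀ (u v : HS), P u = P v → ∀ i, w i u = w i v := by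
    intro u v h i
    have := congrFun (congrArg Subtype.val h) i
    exact this
  have hωle : ∀ k, ∀ᵐ x ∂mT, ‖ω k x‖ ≤ 1 ∧ ‖1 - ω k x‖ ≤ 1 := by
    intro k
    filter_upwards [hω1 k] with x h1
    constructor
    · nlinarith [norm_nonneg (ω k x), norm_nonneg (1 - ω k x)]
    · nlinarith [norm_nonneg (ω k x), norm_nonneg (1 - ω k x)]
  -- the two multipliers
  set ω2 : ℕ → TC → ℂ := fun k => ω k * ω k with hω2
  set τ2 : ℕ → TC → ℂ := fun k => (fun x => 1 - ω k x) * (fun x => 1 - ω k x) with hτ2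
  have hω2H : ∀ k, HI (ω2 k) := fun k => ((hωH k).mul (hωH k)).1
  have hτ2H : ∀ k, HI (τ2 k) := fun k => ((hτH k).mul (hτH k)).1
  have hω2n : ∀ k, ∀ᵐ x ∂mT, ‖ω2 k x‖ + ‖τ2 k x‖ ≤ 1 := by
    intro k
    filter_upwards [hω1 k] with x h1
    rw [hω2, hτ2]
    simp only [Pi.mul_apply, norm_mul]
    nlinarith
  have hω2l : ∀ᵐ x ∂mT, Tendsto (fun k => ω2 k x) atTop (𝓝 0) := by
    filter_upwards [hω0] with x hx
    have := hx.mul hx
    rw [zero_mul] at this
    exact this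
  have hτ2l : ∀ᵐ x ∂mT, Tendsto (fun k => τ2 k x) atTop (𝓝 1) := by
    filter_upwards [hω0] with x hx
    have h1 : Tendsto (fun k => 1 - ω k x) atTop (𝓝 (1 - 0)) := hx.const_sub 1
    have := h1.mul h1
    rw [sub_zero, mul_one] at this
    exact this
  have hconvτ : ∀ (u : HS) (D : ℝ), (∀ᵐ x ∂mT, ‖(u : TC → ℂ) x‖ ≤ D) →
      Tendsto (fun k => P (mulHS (τ2 k) (hτ2H k) u)) atTop (𝓝 (P u)) := by
    intro u D hD
    refine P_conv W w N hwF hwAC hW _ _ D (fun k => ?_) ?_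
    · filter_upwards [hD, hω2n k] with x h1 h2
      show ‖(τ2 k * (u : TC → ℂ)) x‖ ≤ D
      rw [Pi.mul_apply, norm_mul]
      have h3 := norm_nonneg (ω2 k x)
      nlinarith [norm_nonneg (τ2 k x), norm_nonneg ((u : TC → ℂ) x)]
    · filter_upwards [hτ2l] with x hx
      have := hx.mul_const ((u : TC → ℂ) x)
      rw [one_mul] at this
      exact this
  have hconvω : ∀ (u : HS) (D : ℝ), (∀ᵐ x ∂mT, ‖(u : TC → ℂ) x‖ ≤ D) →
      Tendsto (fun k => P (mulHS (ω2 k) (hω2H k) u)) atTop (𝓝 0) := by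
    intro u D hD
    have h0 := P_conv W w N hwF hwAC hW (fun k => mulHS (ω2 k) (hω2H k) u) 0 D (fun k => ?_) ?_
    · rw [map_zero] at h0
      exact h0
    · filter_upwards [hD, hω2n k] with x h1 h2
      show ‖(ω2 k * (u : TC → ℂ)) x‖ ≤ D
      rw [Pi.mul_apply, norm_mul]
      have h3 := norm_nonneg (τ2 k x)
      nlinarith [norm_nonneg (ω2 k x), norm_nonneg ((u : TC → ℂ) x)]
    · filter_upwards [hω2l] with x hx
      have := hx.mul_const ((u : TC → ℂ) x)
      rw [zero_mul] at this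
      exact this
  -- the linear maps
  let M : ℕ → LinearMap.range W →ₗ[ℂ] LinearMap.range W := fun k =>
    P ∘ₗ (mulHS (τ2 k) (hτ2H k)) ∘ₗ ρ
  have hM : ∀ y, Tendsto (fun k => M k y) atTop (𝓝 y) := by
    intro y
    have := hconvτ (ρ y) _ (hC y)
    rw [hPρ] at this
    exact this
  have hsol := solve M hM
  set t : ℕ → LinearMap.range W := fun k =>
    P ⟨f, hf⟩ - P (mulHS (ω2 k) (hω2H k) ⟨f, hf⟩) - P (mulHS (τ2 k) (hτ2H k) g1) with ht
  have ht0 : Tendsto t atTop (𝓝 0) := by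
    have h1 := hconvω ⟨f, hf⟩ 1 (by filter_upwards [hf1] with x hx using hx.le)
    have h2 := hconvτ g1 _ hg1
    have h3 := (h1.const_sub (P ⟨f, hf⟩)).sub h2
    rw [sub_zero, hg1f, sub_self] at h3
    exact h3
  have ht1 : Tendsto (fun k => C * (2 * ‖t k‖)) atTop (𝓝 0) := by
    have := (ht0.norm.const_mul 2).const_mul C
    simpa using this
  obtain ⟨k0, hk0⟩ := eventually_atTop.1 (hsol.and (ht1.eventually_lt_const hd))
  have hy : ∀ k, ∃ y, k0 ≤ k → M k y = t k ∧ ‖y‖ ≤ 2 * ‖t k‖ := by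
    intro k
    by_cases h : k0 ≤ k
    · obtain ⟨y, h1, h2⟩ := (hk0 k h).1 (t k)
      exact ⟨y, fun _ => ⟨h1, h2⟩⟩
    · exact ⟨0, fun h' => absurd h' h⟩
  choose y hy using hy
  set g : ℕ → HS := fun k => g1 + ρ (y k) with hg
  have hgC : ∀ k, k0 ≤ k → ∀ᵐ x ∂mT, ‖(ρ (y k) : TC → ℂ) x‖ ≤ C * (2 * ‖t k‖) := by
    intro k hk
    filter_upwards [hC (y k)] with x hx
    exact hx.trans (mul_le_mul_of_nonneg_left (hy k hk).2 hC0.le)
  have hgn : ∀ k, k0 ≤ k → ∀ᵐ x ∂mT, ‖(g k : TC → ℂ) x‖ ≤ 1 := by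
    intro k hk
    filter_upwards [hgC k hk, hg1] with x h1 h2
    have h3 : (g k : TC → ℂ) x = (g1 : TC → ℂ) x + (ρ (y k) : TC → ℂ) x := rfl
    rw [h3]
    refine (norm_add_le _ _).trans ?_
    have := (hk0 k hk).2
    linarith
  -- the competitor
  set h : ℕ → HS := fun k => mulHS (ω2 k) (hω2H k) ⟨f, hf⟩ + mulHS (τ2 k) (hτ2H k) (g k) with hh
  have hhn : ∀ k, k0 ≤ k → ∀ᵐ x ∂mT, ‖(h k : TC → ℂ) x‖ ≤ 1 := by
    intro k hk
    filter_upwards [hgn k hk, hf1, hω2n k] with x h1 h2 h3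
    have h4 : (h k : TC → ℂ) x = ω2 k x * f x + τ2 k x * (g k : TC → ℂ) x := rfl
    rw [h4]
    refine (norm_add_le _ _).trans ?_
    rw [norm_mul, norm_mul]
    nlinarith [norm_nonneg (ω2 k x), norm_nonneg (τ2 k x), norm_nonneg (f x),
      norm_nonneg ((g k : TC → ℂ) x)]
  have hPh : ∀ k, k0 ≤ k → P (h k) = P ⟨f, hf⟩ := by
    intro k hk
    have h1 := (hy k hk).1
    have h2 : M k (y k) = P (mulHS (τ2 k) (hτ2H k) (ρ (y k))) := rfl
    rw [h2, ht] at h1
    simp only at h1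
    rw [hh]
    simp only
    rw [hg]
    simp only
    rw [map_add, map_add, map_add, h1]
    abel
  have hhsp : ∀ (N' : ℝ) (lam : (TC → ℂ) → ℂ), Fnl mT N' lam → ∀ k,
      sp lam B (h k) = sp lam B f := by
    intro N' lam hlam k
    have hs := sp_fnl hlam hBm hB
    have hgB : BM mT (g k : TC → ℂ) := (show HI (g k : TC → ℂ) from (g k).2).1
    set v : TC → ℂ := (-2 : ℂ) • f + (fun x => 1 - ω k x) * (f + g k) with hv
    have hvB : BM mT v := (hf.1.smul _).add ((hτH k).1.mul (hf.1.add hgB))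
    have e : (h k : TC → ℂ) = f + (fun x => 1 - ω k x) * v := by
      funext x
      have h4 : (h k : TC → ℂ) x = ω2 k x * f x + τ2 k x * (g k : TC → ℂ) x := rfl
      rw [h4, hω2, hτ2, hv]
      simp only [Pi.add_apply, Pi.mul_apply, Pi.smul_apply, smul_eq_mul]
      ring
    rw [e, hs.add _ _ hf.1 ((hτH k).1.mul hvB), hωs N' lam hlam k v hvB, add_zero]
  have hhf : ∀ k, k0 ≤ k → (h k : TC → ℂ) =ᵐ[mT] f := by
    intro k hk
    have hhH : HI (h k : TC → ℂ) := (h k).2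
    refine hexp _ hhH (hhn k hk) (fun i => ?_) ?_
    · have h1 : w i (h k) = w i f := hPw (h k) ⟨f, hf⟩ (hPh k hk) i
      have h2 := hhsp (N i) (l i) (hl i) k
      have h3 : w i (h k) = l i (h k) - sp (l i) B (h k) := rfl
      have h4 : w i f = l i f - sp (l i) B f := rfl
      rw [h3, h4, h2, hlf i] at h1
      linear_combination h1
    · rw [hφs _ hhH.1, hhsp 1 φ hφ k, ← hφs _ hf.1, hφf]
  -- conclusion
  have hg1f' : ∀ᵐ x ∂mT, (g1 : TC → ℂ) x = f x := by
    have h1 : ∀ᵐ x ∂mT, ∀ k, k0 ≤ k → (h k : TC → ℂ) x = f x :=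
      ae_all_iff.2 fun k => by
        by_cases hk : k0 ≤ k
        · filter_upwards [hhf k hk] with x hx _ using hx
        · exact Eventually.of_forall fun x h' => absurd h' hk
    have h2 : ∀ᵐ x ∂mT, ∀ k, k0 ≤ k → ‖(ρ (y k) : TC → ℂ) x‖ ≤ C * (2 * ‖t k‖) :=
      ae_all_iff.2 fun k => by
        by_cases hk : k0 ≤ k
        · filter_upwards [hgC k hk] with x hx _ using hx
        · exact Eventually.of_forall fun x h' => absurd h' hk
    filter_upwards [h1, h2, hω2l, hτ2l] with x a1 a2 a3 a4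
    have h3 : Tendsto (fun k => (ρ (y k) : TC → ℂ) x) atTop (𝓝 0) := by
      refine squeeze_zero_norm' ?_ ht1
      filter_upwards [eventually_ge_atTop k0] with k hk using a2 k hk
    have h4 : Tendsto (fun k => ω2 k x * f x + τ2 k x * ((g1 : TC → ℂ) x + (ρ (y k) : TC → ℂ) x))
        atTop (𝓝 (0 * f x + 1 * ((g1 : TC → ℂ) x + 0))) :=
      (a3.mul_const _).add (a4.mul (h3.const_add _))
    have h5 : Tendsto (fun k => ω2 k x * f x + τ2 k x * ((g1 : TC → ℂ) x + (ρ (y k) : TC → ℂ) x))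
        atTop (𝓝 (f x)) := by
      refine tendsto_const_nhds.congr' ?_
      filter_upwards [eventually_ge_atTop k0] with k hk
      exact (a1 k hk).symm
    have h6 := tendsto_nhds_unique h4 h5
    rw [zero_mul, zero_add, one_mul, add_zero] at h6
    exact h6
  have h1 : ∀ᵐ x ∂mT, ‖f x‖ ≤ max (1 - d) 0 := by
    filter_upwards [hg1f', hg1] with x a1 a2
    rw [← a1]
    exact a2.trans (le_max_left _ _)
  have h2 := hφ.bound _ f hf.1 (le_max_right _ _) h1
  rw [hφf, norm_one, one_mul] at h2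
  have h3 : max (1 - d) 0 < 1 := max_lt (by linarith) one_pos
  linarith

end Pool.Agent.R422.EX
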