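import Mathlib

/-!
# Bounded functionals on `L^∞` of a finite measure space: singular and absolutely continuous parts
-/

set_option autoImplicit false

open scoped Topology ENNReal
open MeasureTheory Filter Set

noncomputable section

namespace Pool.Agent.R422.EX

variable {X : Type} [MeasurableSpace X]

/-- essentially bounded functions -/
def BM (μ : Measure X) (u : X → ℂ) : Prop :=
  AEStronglyMeasurable u μ ∧ ∃ C : ℝ, ∀ᵐ x ∂μ, ‖u x‖ ≤ C

variable {μ : Measure X}

namespace BM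

variable {u v : X → ℂ}

lemma add (hu : BM μ u) (hv : BM μ v) : BM μ (u + v) := by
  obtain ⟨hu1, C, hC⟩ := hu
  obtain ⟨hv1, D, hD⟩ := hv
  refine ⟨hu1.add hv1, C + D, ?_⟩
  filter_upwards [hC, hD] with x a b
  exact (norm_add_le _ _).trans (add_le_add a b)

lemma mul (hu : BM μ u) (hv : BM μ v) : BM μ (u * v) := by
  obtain ⟨hu1, C, hC⟩ := hu
  obtain ⟨hv1, D, hD⟩ := hv
  refine ⟨hu1.mul hv1, C * D, ?_⟩
  filter_upwards [hC, hD] with x a b
  rw [Pi.mul_apply, norm_mul]
  exact mul_le_mul a b (norm_nonneg _) ((norm_nonneg _).trans a)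

lemma const (c : ℂ) : BM μ (fun _ => c) := ⟨aestronglyMeasurable_const, ‖c‖, by simp⟩

lemma smul (hu : BM μ u) (c : ℂ) : BM μ (c • u) := (const (μ := μ) c).mul hu

lemma neg (hu : BM μ u) : BM μ (-u) := by
  have := hu.smul (-1)
  simpa using this

lemma sub (hu : BM μ u) (hv : BM μ v) : BM μ (u - v) := by
  have := hu.add hv.neg
  rwa [← sub_eq_add_neg] at this

lemma indicator (hu : BM μ u) {E : Set X} (hE : MeasurableSet E) : BM μ (E.indicator u) := by
  obtain ⟨hu1, C, hC⟩ := hu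
  refine ⟨hu1.indicator hE, C, ?_⟩
  filter_upwards [hC] with x a
  exact (norm_indicator_le_norm_self u x).trans a

lemma exists_nonneg (hu : BM μ u) : ∃ C : ℝ, 0 ≤ C ∧ ∀ᵐ x ∂μ, ‖u x‖ ≤ C := by
  obtain ⟨-, C, hC⟩ := hu
  exact ⟨max C 0, le_max_right _ _, by filter_upwards [hC] with x a using a.trans (le_max_left _ _)⟩

lemma congr (hu : BM μ u) (h : u =ᵐ[μ] v) : BM μ v := by
  obtain ⟨hu1, C, hC⟩ := hu
  refine ⟨hu1.congr h, C, ?_⟩
  filter_upwards [hC, h] with x a b
  rw [← b]; exact a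

end BM

/-- bounded linear functionals on essentially bounded functions -/
structure Fnl (μ : Measure X) (N : ℝ) (l : (X → ℂ) → ℂ) : Prop where
  add : ∀ u v, BM μ u → BM μ v → l (u + v) = l u + l v
  smul : ∀ (c : ℂ) u, BM μ u → l (c • u) = c * l u
  bound : ∀ (C : ℝ) u, BM μ u → 0 ≤ C → (∀ᵐ x ∂μ, ‖u x‖ ≤ C) → ‖l u‖ ≤ N * C

namespace Fnl

variable {N : ℝ} {l : (X → ℂ) → ℂ}

lemma neg (h : Fnl μ N l) {u : X → ℂ} (hu : BM μ u) : l (-u) = -l u := by
  have := h.smul (-1) u hu
  simpa using this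

lemma sub (h : Fnl μ N l) {u v : X → ℂ} (hu : BM μ u) (hv : BM μ v) : l (u - v) = l u - l v := by
  rw [sub_eq_add_neg, h.add _ _ hu hv.neg, h.neg hv, sub_eq_add_neg]

lemma nonneg (h : Fnl μ N l) : 0 ≤ N := by
  have := h.bound 1 (fun _ => 0) (BM.const 0) zero_le_one (by simp)
  have h2 := (norm_nonneg _).trans this
  linarith

lemma congr (h : Fnl μ N l) {u v : X → ℂ} (hu : BM μ u) (e : u =ᵐ[μ] v) : l u = l v := by
  have hv := hu.congr e
  have h1 := h.bound 0 (u - v) (hu.sub hv) le_rfl (by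
    filter_upwards [e] with x hx
    simp [hx])
  rw [mul_zero, norm_le_zero_iff, h.sub hu hv] at h1
  exact sub_eq_zero.1 h1

end Fnl

/-- the total variation on a set -/
def tv (μ : Measure X) (l : (X → ℂ) → ℂ) (E : Set X) : ℝ :=
  sSup {r | ∃ u, BM μ u ∧ (∀ᵐ x ∂μ, ‖u x‖ ≤ E.indicator (fun _ => (1 : ℝ)) x) ∧ r = ‖l u‖}

section tv

variable {N : ℝ} {l : (X → ℂ) → ℂ}

lemma tv_bdd (h : Fnl μ N l) (E : Set X) :
    BddAbove {r | ∃ u, BM μ u ∧ (∀ᵐ x ∂μ, ‖u x‖ ≤ E.indicator (fun _ => (1 : ℝ)) x) ∧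
      r = ‖l u‖} := by
  refine ⟨N * 1, ?_⟩
  rintro r ⟨u, hu, hb, rfl⟩
  refine h.bound 1 u hu zero_le_one ?_
  filter_upwards [hb] with x hx
  refine hx.trans ?_
  by_cases hxE : x ∈ E
  · rw [indicator_of_mem hxE]
  · rw [indicator_of_notMem hxE]; exact zero_le_one

lemma tv_ne (E : Set X) :
    ({r | ∃ u, BM μ u ∧ (∀ᵐ x ∂μ, ‖u x‖ ≤ E.indicator (fun _ => (1 : ℝ)) x) ∧
      r = ‖l u‖} : Set ℝ).Nonempty := by
  refine ⟨‖l (fun _ => 0)‖, fun _ => 0, BM.const 0, ?_, rfl⟩
  refine Eventually.of_forall fun x => ?_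
  rw [norm_zero]
  exact indicator_nonneg (fun _ _ => zero_le_one) x

lemma le_tv (h : Fnl μ N l) {E : Set X} {u : X → ℂ} (hu : BM μ u)
    (hb : ∀ᵐ x ∂μ, ‖u x‖ ≤ E.indicator (fun _ => (1 : ℝ)) x) : ‖l u‖ ≤ tv μ l E :=
  le_csSup (tv_bdd h E) ⟨u, hu, hb, rfl⟩

lemma tv_nonneg (h : Fnl μ N l) (E : Set X) : 0 ≤ tv μ l E := by
  obtain ⟨r, u, hu, hb, rfl⟩ := tv_ne (μ := μ) (l := l) E
  exact (norm_nonneg _).trans (le_tv h hu hb)

lemma tv_le {E : Set X} {K : ℝ} (hK : ∀ u, BM μ u →
    (∀ᵐ x ∂μ, ‖u x‖ ≤ E.indicator (fun _ => (1 : ℝ)) x) → ‖l u‖ ≤ K) : tv μ l E ≤ K := by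
  refine csSup_le (tv_ne E) ?_
  rintro r ⟨u, hu, hb, rfl⟩
  exact hK u hu hb

lemma tv_le_N (h : Fnl μ N l) (E : Set X) : tv μ l E ≤ N := by
  refine tv_le fun u hu hb => ?_
  have := h.bound 1 u hu zero_le_one (by
    filter_upwards [hb] with x hx
    refine hx.trans ?_
    by_cases hxE : x ∈ E
    · rw [indicator_of_mem hxE]
    · rw [indicator_of_notMem hxE]; exact zero_le_one)
  linarith

lemma tv_mono (h : Fnl μ N l) {E F : Set X} (hEF : E ⊆ F) : tv μ l E ≤ tv μ l F := by
  refine tv_le fun u hu hb => le_tv h hu ?_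
  filter_upwards [hb] with x hx
  exact hx.trans (indicator_le_indicator_of_subset hEF (fun _ => zero_le_one) x)

/-- the estimate with a constant -/
lemma tv_bound (h : Fnl μ N l) {E : Set X} {u : X → ℂ} (hu : BM μ u) {C : ℝ} (hC : 0 ≤ C)
    (hb : ∀ᵐ x ∂μ, ‖u x‖ ≤ E.indicator (fun _ => C) x) : ‖l u‖ ≤ C * tv μ l E := by
  rcases hC.eq_or_lt with h0 | h0
  · have := h.bound 0 u hu le_rfl (by
      filter_upwards [hb] with x hx
      rw [← h0] at hx
      simpa using hx)
    rw [← h0]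
    simpa using this
  · have h1 : ‖l ((C⁻¹ : ℂ) • u)‖ ≤ tv μ l E := by
      refine le_tv h (hu.smul _) ?_
      filter_upwards [hb] with x hx
      rw [Pi.smul_apply, norm_smul, norm_inv, Complex.norm_real, Real.norm_eq_abs, abs_of_pos h0]
      by_cases hxE : x ∈ E
      · rw [indicator_of_mem hxE] at hx ⊢
        rw [inv_mul_le_iff₀ h0]
        simpa using hx
      · rw [indicator_of_notMem hxE] at hx ⊢
        have : ‖u x‖ = 0 := le_antisymm hx (norm_nonneg _)
        rw [this]; simp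
    rw [h.smul _ _ hu, norm_mul, norm_inv, Complex.norm_real, Real.norm_eq_abs, abs_of_pos h0,
      inv_mul_le_iff₀ h0] at h1
    exact h1

lemma rotate (z : ℂ) : ∃ c : ℂ, ‖c‖ = 1 ∧ c * z = (‖z‖ : ℂ) := by
  by_cases hz : z = 0
  · exact ⟨1, by simp, by simp [hz]⟩
  · refine ⟨(‖z‖ : ℂ) / z, ?_, ?_⟩
    · rw [norm_div, Complex.norm_real, norm_norm, div_self (norm_ne_zero_iff.2 hz)]
    · field_simp

lemma tv_union (h : Fnl μ N l) {E F : Set X} (hE : MeasurableSet E) (hF : MeasurableSet F)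
    (hd : Disjoint E F) : tv μ l (E ∪ F) = tv μ l E + tv μ l F := by
  apply le_antisymm
  · refine tv_le fun u hu hb => ?_
    have e : u =ᵐ[μ] E.indicator u + F.indicator u := by
      filter_upwards [hb] with x hx
      rw [Pi.add_apply]
      by_cases h1 : x ∈ E
      · have h2 : x ∉ F := fun h2 => (Set.disjoint_left.1 hd h1) h2
        rw [indicator_of_mem h1, indicator_of_notMem h2, add_zero]
      · by_cases h2 : x ∈ F
        · rw [indicator_of_notMem h1, indicator_of_mem h2, zero_add]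
        · rw [indicator_of_notMem (by simp [h1, h2])] at hx
          rw [indicator_of_notMem h1, indicator_of_notMem h2, add_zero]
          exact norm_le_zero_iff.1 hx
    rw [h.congr hu e, h.add _ _ (hu.indicator hE) (hu.indicator hF)]
    refine (norm_add_le _ _).trans (add_le_add ?_ ?_)
    · refine le_tv h (hu.indicator hE) ?_
      filter_upwards [hb] with x hx
      by_cases h1 : x ∈ E
      · rw [indicator_of_mem (show x ∈ E ∪ F from Or.inl h1)] at hx
        rw [indicator_of_mem h1, indicator_of_mem h1]; exact hx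
      · rw [indicator_of_notMem h1, indicator_of_notMem h1]; simp
    · refine le_tv h (hu.indicator hF) ?_
      filter_upwards [hb] with x hx
      by_cases h1 : x ∈ F
      · rw [indicator_of_mem (show x ∈ E ∪ F from Or.inr h1)] at hx
        rw [indicator_of_mem h1, indicator_of_mem h1]; exact hx
      · rw [indicator_of_notMem h1, indicator_of_notMem h1]; simp
  · have key : ∀ u, BM μ u → (∀ᵐ x ∂μ, ‖u x‖ ≤ E.indicator (fun _ => (1 : ℝ)) x) →
        ∀ v, BM μ v → (∀ᵐ x ∂μ, ‖v x‖ ≤ F.indicator (fun _ => (1 : ℝ)) x) →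
        ‖l u‖ + ‖l v‖ ≤ tv μ l (E ∪ F) := by
      intro u hu hub v hv hvb
      obtain ⟨c, hc, hcu⟩ := rotate (l u)
      obtain ⟨d, hd', hdv⟩ := rotate (l v)
      have h1 : ‖l (c • u + d • v)‖ ≤ tv μ l (E ∪ F) := by
        refine le_tv h ((hu.smul c).add (hv.smul d)) ?_
        filter_upwards [hub, hvb] with x a b
        rw [Pi.add_apply, Pi.smul_apply, Pi.smul_apply]
        refine (norm_add_le _ _).trans ?_
        rw [norm_smul, norm_smul, hc, hd', one_mul, one_mul]
        by_cases h1 : x ∈ E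
        · have h2 : x ∉ F := fun h2 => (Set.disjoint_left.1 hd h1) h2
          rw [indicator_of_mem h1] at a
          rw [indicator_of_notMem h2] at b
          rw [indicator_of_mem (show x ∈ E ∪ F from Or.inl h1)]
          linarith
        · rw [indicator_of_notMem h1] at a
          by_cases h2 : x ∈ F
          · rw [indicator_of_mem h2] at b
            rw [indicator_of_mem (show x ∈ E ∪ F from Or.inr h2)]
            linarith
          · rw [indicator_of_notMem h2] at b
            rw [indicator_of_notMem (by simp [h1, h2])]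
            linarith
      rw [h.add _ _ (hu.smul c) (hv.smul d), h.smul _ _ hu, h.smul _ _ hv, hcu, hdv,
        ← Complex.ofReal_add, Complex.norm_real, Real.norm_eq_abs,
        abs_of_nonneg (by positivity)] at h1
      exact h1
    have h2 : tv μ l E ≤ tv μ l (E ∪ F) - tv μ l F := by
      refine tv_le fun u hu hub => ?_
      have h3 : tv μ l F ≤ tv μ l (E ∪ F) - ‖l u‖ := by
        refine tv_le fun v hv hvb => ?_
        linarith [key u hu hub v hv hvb]
      linarith
    linarith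

lemma tv_diff (h : Fnl μ N l) {E F : Set X} (hE : MeasurableSet E) (hF : MeasurableSet F)
    (hEF : F ⊆ E) : tv μ l (E \ F) = tv μ l E - tv μ l F := by
  have h1 := tv_union h (hE.diff hF) hF disjoint_sdiff_left
  rw [Set.sdiff_union_of_subset hEF] at h1
  linarith

end tv

end Pool.Agent.R422.EX
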