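import Pool.Agent.R422.EX.Fnl
import Pool.Agent.R422.EX.Defs

/-!
# Bounded analytic functions on the circle
-/

set_option autoImplicit false

open scoped Topology ENNReal Real ComplexConjugate InnerProductSpace
open MeasureTheory Filter Set Complex

noncomputable section

namespace Pool.Agent.R422.EX

/-- the point of the unit circle -/
def zt (x : TC) : ℂ := (AddCircle.toCircle x : ℂ)

lemma zt_coe (θ : ℝ) : zt (θ : TC) = exp (θ * I) := by
  unfold zt
  rw [AddCircle.toCircle_apply_mk, Circle.coe_exp]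
  congr 2
  push_cast
  have : (π : ℂ) ≠ 0 := by exact_mod_cast Real.pi_ne_zero
  field_simp

lemma norm_zt (x : TC) : ‖zt x‖ = 1 := Circle.norm_coe _

lemma continuous_zt : Continuous zt :=
  continuous_subtype_val.comp AddCircle.continuous_toCircle

lemma fourier_eq (n : ℤ) (x : TC) : fourier n x = zt x ^ n := by
  rw [fourier_apply, AddCircle.toCircle_zsmul]
  simp [zt]

/-- integrals over the circle -/
lemma integral_zt (G : ℂ → ℂ) : ∫ x, G (zt x) ∂mT = Real.circleAverage G 0 1 := by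
  rw [AddCircle.integral_haarAddCircle, Real.circleAverage,
    ← AddCircle.intervalIntegral_preimage (2 * π) 0]
  simp only [zt_coe, zero_add, circleMap, ofReal_one, one_mul]

/-- mean value property -/
lemma integral_holo {G : ℂ → ℂ} (hG : ∀ z, ‖z‖ ≤ 1 → DifferentiableAt ℂ G z) :
    ∫ x, G (zt x) ∂mT = G 0 := by
  rw [integral_zt]
  apply DiffContOnCl.circleAverage
  have : DifferentiableOn ℂ G (Metric.closedBall 0 1) := fun z hz =>
    (hG z (by simpa using hz)).differentiableWithinAt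
  rw [abs_one]
  refine DifferentiableOn.diffContOnCl ?_
  rwa [closure_ball _ one_ne_zero]

/-- bounded analytic functions -/
def HI (u : TC → ℂ) : Prop := BM mT u ∧ ∀ k : ℤ, k < 0 → fourierCoeff u k = 0

lemma BM.memLp {u : TC → ℂ} (hu : BM mT u) (p : ℝ≥0∞) : MemLp u p mT := by
  obtain ⟨h1, C, hC⟩ := hu
  exact MemLp.of_bound h1 C hC

lemma BM.integrable {u : TC → ℂ} (hu : BM mT u) : Integrable u mT :=
  memLp_one_iff_integrable.1 (hu.memLp 1)

lemma bm_cont {u : TC → ℂ} (hu : Continuous u) : BM mT u := by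
  refine ⟨hu.aestronglyMeasurable, ?_⟩
  obtain ⟨C, hC⟩ := (isCompact_univ (X := TC)).exists_bound_of_continuousOn hu.continuousOn
  exact ⟨C, Eventually.of_forall fun x => hC x (mem_univ x)⟩

lemma bm_fourier (n : ℤ) : BM mT (fourier n) := bm_cont (fourier n).continuous

lemma BM.conj {u : TC → ℂ} (hu : BM mT u) : BM mT (fun x => conj (u x)) := by
  obtain ⟨h1, C, hC⟩ := hu
  refine ⟨continuous_conj.comp_aestronglyMeasurable h1, C, ?_⟩
  filter_upwards [hC] with x hx
  simpa using hx

lemma fc_def (u : TC → ℂ) (k : ℤ) : fourierCoeff u k = ∫ x, fourier (-k) x * u x ∂mT := by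
  simp [fourierCoeff, smul_eq_mul]

lemma fc_add {u v : TC → ℂ} (hu : BM mT u) (hv : BM mT v) (k : ℤ) :
    fourierCoeff (u + v) k = fourierCoeff u k + fourierCoeff v k := by
  have h1 : Integrable (fun x => fourier (-k) x * u x) mT := ((bm_fourier _).mul hu).integrable
  have h2 : Integrable (fun x => fourier (-k) x * v x) mT := ((bm_fourier _).mul hv).integrable
  rw [fc_def, fc_def, fc_def, ← integral_add h1 h2]
  congr 1
  funext x
  simp only [Pi.add_apply]
  ring

lemma fc_smul (u : TC → ℂ) (c : ℂ) (k : ℤ) :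
    fourierCoeff (c • u) k = c * fourierCoeff u k := by
  rw [fc_def, fc_def, ← integral_const_mul]
  congr 1
  funext x
  simp only [Pi.smul_apply, smul_eq_mul]
  ring

lemma HI.add {u v : TC → ℂ} (hu : HI u) (hv : HI v) : HI (u + v) :=
  ⟨hu.1.add hv.1, fun k hk => by rw [fc_add hu.1 hv.1, hu.2 k hk, hv.2 k hk, add_zero]⟩

lemma HI.smul {u : TC → ℂ} (hu : HI u) (c : ℂ) : HI (c • u) :=
  ⟨hu.1.smul c, fun k hk => by rw [fc_smul, hu.2 k hk, mul_zero]⟩

lemma HI.congr {u v : TC → ℂ} (hu : HI u) (h : u =ᵐ[mT] v) : HI v :=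
  ⟨hu.1.congr h, fun k hk => by
    rw [← hu.2 k hk]
    exact (fourierCoeff_congr_ae h).symm ▸ rfl⟩

/-- functions holomorphic near the closed disc -/
lemma hi_holo {G : ℂ → ℂ} (hG : ∀ z, ‖z‖ ≤ 1 → DifferentiableAt ℂ G z) :
    HI (fun x => G (zt x)) ∧ fourierCoeff (fun x => G (zt x)) 0 = G 0 := by
  have hcont : Continuous (fun x => G (zt x)) := by
    rw [continuous_iff_continuousAt]
    intro x
    exact ContinuousAt.comp (g := G) (hG _ (norm_zt x).le).continuousAt continuous_zt.continuousAt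
  refine ⟨⟨bm_cont hcont, ?_⟩, ?_⟩
  · intro k hk
    obtain ⟨m, hm⟩ : ∃ m : ℕ, -k = (m : ℤ) + 1 := by
      obtain ⟨m, hm⟩ := Int.eq_ofNat_of_zero_le (show 0 ≤ -k - 1 by omega)
      exact ⟨m, by omega⟩
    rw [fc_def]
    have h1 : (fun x => fourier (-k) x * G (zt x)) = fun x => (fun z => z ^ (m + 1) * G z) (zt x) := by
      funext x
      rw [fourier_eq, hm]
      norm_cast
    have h2 := integral_holo (G := fun z => z ^ (m + 1) * G z) (fun z hz =>
      (differentiableAt_pow _).mul (hG z hz))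
    rw [h1]
    refine h2.trans ?_
    simp
  · rw [fc_def]
    simp only [neg_zero, fourier_zero, one_mul]
    exact integral_holo hG

lemma hi_const (c : ℂ) : HI (fun _ => c) := (hi_holo (G := fun _ => c) fun _ _ => by fun_prop).1

/-- limits -/
lemma hi_lim {u : ℕ → TC → ℂ} {v : TC → ℂ} (hu : ∀ j, HI (u j)) (hv : AEStronglyMeasurable v mT)
    {C : ℝ} (hC : ∀ j, ∀ᵐ x ∂mT, ‖u j x‖ ≤ C)
    (hlim : ∀ᵐ x ∂mT, Tendsto (fun j => u j x) atTop (𝓝 (v x))) :
    HI v ∧ Tendsto (fun j => fourierCoeff (u j) 0) atTop (𝓝 (fourierCoeff v 0)) := by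
  have hb : ∀ᵐ x ∂mT, ‖v x‖ ≤ C := by
    filter_upwards [hlim, ae_all_iff.2 hC] with x hx hCx
    exact le_of_tendsto' hx.norm hCx
  have hcoef : ∀ k, Tendsto (fun j => fourierCoeff (u j) k) atTop (𝓝 (fourierCoeff v k)) := by
    intro k
    simp_rw [fc_def]
    refine tendsto_integral_of_dominated_convergence (fun _ => C) ?_ (integrable_const _) ?_ ?_
    · intro j
      exact ((bm_fourier (-k)).mul (hu j).1).1
    · intro j
      filter_upwards [hC j] with x hx
      rw [norm_mul, fourier_eq, norm_zpow, norm_zt, one_zpow, one_mul]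
      exact hx
    · filter_upwards [hlim] with x hx
      exact hx.const_mul _
  refine ⟨⟨⟨hv, C, hb⟩, fun k hk => ?_⟩, hcoef 0⟩
  have h1 := hcoef k
  simp_rw [fun j => (hu j).2 k hk] at h1
  exact (tendsto_nhds_unique h1 tendsto_const_nhds)

/-- a coefficient as an inner product -/
lemma inner_fourier {u : TC → ℂ} (hu : BM mT u) (i : ℤ) :
    ⟪(fourierBasis (T := 2 * π)) i, (hu.memLp 2).toLp u⟫_ℂ = fourierCoeff u i := by
  rw [← HilbertBasis.repr_apply_apply, fourierBasis_repr]
  exact fourierCoeff_congr_ae (hu.memLp 2).coeFn_toLp ▸ rfl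

/-- products -/
lemma fc_mul {u v : TC → ℂ} (hu : HI u) (hv : BM mT v) (k : ℤ) :
    HasSum (fun i : ℤ => fourierCoeff v (k - i) * fourierCoeff u i) (fourierCoeff (u * v) k) := by
  set a : TC → ℂ := fun x => conj (fourier (-k) x * v x) with ha
  have haB : BM mT a := ((bm_fourier (-k)).mul hv).conj
  have h1 := (fourierBasis (T := 2 * π)).hasSum_inner_mul_inner ((haB.memLp 2).toLp a)
    ((hu.1.memLp 2).toLp u)
  have h2 : ⟪(haB.memLp 2).toLp a, (hu.1.memLp 2).toLp u⟫_ℂ = fourierCoeff (u * v) k := by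
    rw [L2.inner_def, fc_def]
    refine integral_congr_ae ?_
    filter_upwards [(haB.memLp 2).coeFn_toLp, (hu.1.memLp 2).coeFn_toLp] with x e1 e2
    rw [e1, e2, RCLike.inner_apply']
    simp only [ha, Complex.conj_conj, Pi.mul_apply]
    ring
  rw [h2] at h1
  have h3 : ∀ i, ⟪(haB.memLp 2).toLp a, (fourierBasis (T := 2 * π)) i⟫_ℂ =
      fourierCoeff v (k - i) := by
    intro i
    rw [← inner_conj_symm, inner_fourier haB, fc_def, ← integral_conj, fc_def]
    congr 1
    funext x
    simp only [ha, map_mul, Complex.conj_conj]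
    rw [← fourier_neg, neg_neg, ← mul_assoc, ← fourier_add]
    congr 3
    ring
  simp_rw [h3, inner_fourier hu.1] at h1
  exact h1

lemma HI.mul {u v : TC → ℂ} (hu : HI u) (hv : HI v) :
    HI (u * v) ∧ fourierCoeff (u * v) 0 = fourierCoeff u 0 * fourierCoeff v 0 := by
  refine ⟨⟨hu.1.mul hv.1, fun k hk => ?_⟩, ?_⟩
  · have h1 := fc_mul hu hv.1 k
    have h2 : (fun i : ℤ => fourierCoeff v (k - i) * fourierCoeff u i) = fun _ => 0 := by
      funext i
      rcases lt_or_ge i 0 with hi | hi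
      · rw [hu.2 i hi, mul_zero]
      · rw [hv.2 (k - i) (by omega), zero_mul]
    rw [h2] at h1
    exact h1.unique hasSum_zero
  · have h1 := fc_mul hu hv.1 0
    have h2 : (fun i : ℤ => fourierCoeff v (0 - i) * fourierCoeff u i) =
        fun i => if i = 0 then fourierCoeff u 0 * fourierCoeff v 0 else 0 := by
      funext i
      rcases lt_trichotomy i 0 with hi | hi | hi
      · rw [hu.2 i hi, mul_zero, if_neg hi.ne]
      · rw [hi, if_pos rfl, sub_zero, mul_comm]
      · rw [hv.2 (0 - i) (by omega), zero_mul, if_neg hi.ne']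
    rw [h2] at h1
    exact h1.unique (hasSum_ite_eq 0 _)

/-- uniqueness from the coefficients -/
lemma fc_inj {u : TC → ℂ} (hu : BM mT u) (h : ∀ k, fourierCoeff u k = 0) : u =ᵐ[mT] 0 := by
  have h1 : (fourierBasis (T := 2 * π)).repr ((hu.memLp 2).toLp u) = 0 := by
    ext i
    rw [HilbertBasis.repr_apply_apply, inner_fourier hu, h i]
    rfl
  have h2 : (hu.memLp 2).toLp u = 0 := by
    have := (fourierBasis (T := 2 * π)).repr.injective (h1.trans (map_zero _).symm)
    exact this
  have h3 := (hu.memLp 2).coeFn_toLp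
  rw [h2] at h3
  exact h3.symm.trans (Lp.coeFn_zero _ _ _)

end Pool.Agent.R422.EX
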