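import Pool.Agent.R422.EX.Core

/-!
# The main argument, continued
-/

set_option autoImplicit false

open scoped Topology ENNReal Real ComplexConjugate
open MeasureTheory Filter Set Complex

noncomputable section

namespace Pool.Agent.R422.EX

/-- the projection onto the range of finitely many functionals is continuous along bounded a.e.
convergence -/
theorem P_conv {ι : Type} [Fintype ι] (W : HS →ₗ[ℂ] (ι → ℂ)) (w : ι → (TC → ℂ) → ℂ) (N : ι → ℝ)
    (hwF : ∀ i, Fnl mT (N i) (w i)) (hwAC : ∀ i, AC mT (w i))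
    (hW : ∀ (u : HS) i, W u i = w i u) (u : ℕ → HS) (v : HS) (C : ℝ)
    (hC : ∀ k, ∀ᵐ x ∂mT, ‖(u k : TC → ℂ) x‖ ≤ C)
    (hlim : ∀ᵐ x ∂mT, Tendsto (fun k => (u k : TC → ℂ) x) atTop (𝓝 ((v : TC → ℂ) x))) :
    Tendsto (fun k => W.rangeRestrict (u k)) atTop (𝓝 (W.rangeRestrict v)) := by
  have hCv : ∀ᵐ x ∂mT, ‖(v : TC → ℂ) x‖ ≤ C := by
    filter_upwards [hlim, ae_all_iff.2 hC] with x hx hCx
    exact le_of_tendsto' hx.norm hCx
  rw [tendsto_subtype_rng]
  rw [tendsto_pi_nhds]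
  intro i
  have h1 := ac_conv (hwF i) (hwAC i) (fun k => (show HI (u k : TC → ℂ) from (u k).2).1)
    (show HI (v : TC → ℂ) from v.2).1 hC hCv hlim
  have h2 : (fun k => ((W.rangeRestrict (u k) : LinearMap.range W) : ι → ℂ) i) =
      fun k => w i (u k) := by
    funext k
    exact hW (u k) i
  rw [h2]
  have h3 : ((W.rangeRestrict v : LinearMap.range W) : ι → ℂ) i = w i v := hW v i
  rw [h3]
  exact h1

/-- the separating functional leads to a contradiction -/
theorem caseB {ι : Type} [Fintype ι] (W : HS →ₗ[ℂ] (ι → ℂ)) (w : ι → (TC → ℂ) → ℂ) (N : ι → ℝ)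
    (hwF : ∀ i, Fnl mT (N i) (w i)) (hwAC : ∀ i, AC mT (w i))
    (hW : ∀ (u : HS) i, W u i = w i u) (f : TC → ℂ) (hfm : Measurable f) (hf : HI f)
    (hf1 : ∀ᵐ x ∂mT, ‖f x‖ < 1)
    (hno : ¬ ∃ d : ℝ, 0 < d ∧ ∃ g : HS, (∀ᵐ x ∂mT, ‖(g : TC → ℂ) x‖ ≤ 1 - d) ∧
      W.rangeRestrict g = W.rangeRestrict ⟨f, hf⟩) : False := by
  obtain ⟨ρ, hρ, C, hC0, hC⟩ := lift W
  set P := W.rangeRestrict with hP
  set U : Set (LinearMap.range W) :=
    {y | ∃ d : ℝ, 0 < d ∧ ∃ g : HS, (∀ᵐ x ∂mT, ‖(g : TC → ℂ) x‖ ≤ 1 - d) ∧ P g = y} with hU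
  have hPρ : ∀ y, P (ρ y) = y := fun y => Subtype.ext (hρ y)
  have hUconv : Convex ℝ U := by
    rintro y1 ⟨d1, hd1, g1, hg1, rfl⟩ y2 ⟨d2, hd2, g2, hg2, rfl⟩ a b ha hb hab
    refine ⟨min d1 d2, lt_min hd1 hd2, (a : ℂ) • g1 + (b : ℂ) • g2, ?_, ?_⟩
    · filter_upwards [hg1, hg2] with x h1 h2
      have h3 : (((a : ℂ) • g1 + (b : ℂ) • g2 : HS) : TC → ℂ) x =
          a * (g1 : TC → ℂ) x + b * (g2 : TC → ℂ) x := by
        simp
      rw [h3]
      refine (norm_add_le _ _).trans ?_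
      rw [norm_mul, norm_mul, norm_real, norm_real, Real.norm_of_nonneg ha, Real.norm_of_nonneg hb]
      have h4 : a * ‖(g1 : TC → ℂ) x‖ ≤ a * (1 - min d1 d2) :=
        mul_le_mul_of_nonneg_left (h1.trans (by linarith [min_le_left d1 d2])) ha
      have h5 : b * ‖(g2 : TC → ℂ) x‖ ≤ b * (1 - min d1 d2) :=
        mul_le_mul_of_nonneg_left (h2.trans (by linarith [min_le_right d1 d2])) hb
      have h6 : a * (1 - min d1 d2) + b * (1 - min d1 d2) = 1 - min d1 d2 := by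
        rw [← add_mul, hab, one_mul]
      linarith
    · rw [map_add, map_smul, map_smul]
      rfl
  have hUopen : IsOpen U := by
    rw [Metric.isOpen_iff]
    rintro y ⟨d, hd, g, hg, rfl⟩
    refine ⟨d / (2 * C), by positivity, fun z hz => ?_⟩
    refine ⟨d / 2, by positivity, g + ρ (z - P g), ?_, ?_⟩
    · filter_upwards [hg, hC (z - P g)] with x h1 h2
      have h3 : ((g + ρ (z - P g) : HS) : TC → ℂ) x =
          (g : TC → ℂ) x + (ρ (z - P g) : TC → ℂ) x := rfl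
      rw [h3]
      refine (norm_add_le _ _).trans ?_
      rw [mem_ball_iff_norm] at hz
      have h4 : C * ‖z - P g‖ ≤ C * (d / (2 * C)) := mul_le_mul_of_nonneg_left hz.le hC0.le
      have h5 : C * (d / (2 * C)) = d / 2 := by field_simp
      linarith
    · rw [map_add, hPρ]
      abel
  obtain ⟨Λ, hΛ⟩ := RCLike.geometric_hahn_banach_open_point (𝕜 := ℂ) hUconv hUopen
    (x := P ⟨f, hf⟩) (fun h => hno h)
  set A : ℝ := RCLike.re (Λ (P ⟨f, hf⟩)) with hA
  have hA0 : 0 < A := by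
    have h0 : (0 : LinearMap.range W) ∈ U := by
      refine ⟨1, one_pos, 0, ?_, map_zero _⟩
      refine Eventually.of_forall fun x => ?_
      simp
    have := hΛ 0 h0
    simpa using this
  have hΛn : ∀ y ∈ U, ‖Λ y‖ < A := by
    rintro y ⟨d, hd, g, hg, rfl⟩
    obtain ⟨c, hc, hcy⟩ := rotate (Λ (P g))
    have h1 : P (c • g) ∈ U := by
      refine ⟨d, hd, c • g, ?_, rfl⟩
      filter_upwards [hg] with x hx
      have h3 : ((c • g : HS) : TC → ℂ) x = c * (g : TC → ℂ) x := rfl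
      rw [h3, norm_mul, hc, one_mul]
      exact hx
    have h2 := hΛ _ h1
    rw [map_smul, map_smul, smul_eq_mul, hcy] at h2
    simpa using h2
  classical
  set θ : (TC → ℂ) → ℂ := fun u => if h : HI u then Λ (P ⟨u, h⟩) / A else 0 with hθ
  have hθe : ∀ (u : TC → ℂ) (h : HI u), θ u = Λ (P ⟨u, h⟩) / A := by
    intro u h
    rw [hθ]
    simp only
    rw [dif_pos h]
  have hAc : (A : ℂ) ≠ 0 := by exact_mod_cast hA0.ne'
  have hθb : ∀ (C' : ℝ) u, HI u → 0 ≤ C' → (∀ᵐ x ∂mT, ‖u x‖ ≤ C') → ‖θ u‖ ≤ 1 * C' := by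
    intro C' u hu hC' hb
    rw [one_mul]
    refine le_of_forall_pos_le_add fun ε hε => ?_
    have hr : 0 < C' + ε := by linarith
    have h1 : P ((((C' + ε : ℝ) : ℂ)⁻¹) • ⟨u, hu⟩) ∈ U := by
      refine ⟨ε / (C' + ε), by positivity, _, ?_, rfl⟩
      filter_upwards [hb] with x hx
      have h3 : (((((C' + ε : ℝ) : ℂ)⁻¹) • (⟨u, hu⟩ : HS) : HS) : TC → ℂ) x =
        (((C' + ε : ℝ) : ℂ)⁻¹) * u x := rfl
      rw [h3, norm_mul, norm_inv, norm_real, Real.norm_of_nonneg hr.le]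
      have h4 : 1 - ε / (C' + ε) = (C' + ε)⁻¹ * C' := by field_simp; ring
      rw [h4]
      exact mul_le_mul_of_nonneg_left hx (by positivity)
    have h2 := hΛn _ h1
    rw [map_smul, map_smul, norm_smul, norm_inv, norm_real, Real.norm_of_nonneg hr.le,
      inv_mul_lt_iff₀ hr] at h2
    rw [hθe u hu, norm_div, norm_real, Real.norm_of_nonneg hA0.le, div_le_iff₀ hA0]
    exact h2.le
  obtain ⟨lam, hlam, hlamθ⟩ := ext_HI θ 1 zero_le_one (by
    intro u v hu hv
    rw [hθe u hu, hθe v hv, hθe _ (hu.add hv), ← add_div, ← map_add, ← map_add]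
    rfl) (by
    intro c u hu
    rw [hθe u hu, hθe _ (hu.smul c)]
    have h1 : (⟨c • u, hu.smul c⟩ : HS) = c • ⟨u, hu⟩ := rfl
    rw [h1, map_smul, map_smul, smul_eq_mul]
    ring) hθb
  have hlf : lam f = 1 := by
    rw [hlamθ f hf]
    have h1 : ‖θ f‖ ≤ 1 := by
      have := hθb 1 f hf zero_le_one (by filter_upwards [hf1] with x hx using hx.le)
      simpa using this
    have h2 : (θ f).re = 1 := by
      rw [hθe f hf, div_ofReal_re]
      exact div_self hA0.ne'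
    have h3 : (θ f).im = 0 := by
      have h4 : normSq (θ f) ≤ 1 := by
        rw [normSq_eq_norm_sq]
        nlinarith [norm_nonneg (θ f)]
      rw [normSq_apply, h2] at h4
      nlinarith
    exact Complex.ext h2 h3
  obtain ⟨B, hBm, hB, hμ, hAC⟩ := decompose (μ := mT) (ι := Unit) (fun _ => lam) (fun _ => 1)
    (fun _ => hlam)
  have hap : ∀ u, BM mT u → lam u = sp lam B u := by
    intro u hu
    have := attain hlam hBm hB (hAC ()) hfm hf.1 hf1 hlf hu
    unfold ap at this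
    exact sub_eq_zero.1 this
  obtain ⟨ω, hωH, hω1, hω0, hωs⟩ := mult B hBm hB hμ
  have hωf : ∀ k, HI (ω k * f) := fun k => ((hωH k).mul hf).1
  have h1 : ∀ k, lam (ω k * f) = 1 := by
    intro k
    have hτ : BM mT (fun x => 1 - ω k x) := (BM.const 1).sub (hωH k).1
    have e : f = ω k * f + (fun x => 1 - ω k x) * f := by
      funext x
      simp only [Pi.add_apply, Pi.mul_apply]
      ring
    have h2 := (sp_fnl hlam hBm hB).add (ω k * f) ((fun x => 1 - ω k x) * f) (hωf k).1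
      (hτ.mul hf.1)
    rw [← e, hωs 1 lam hlam k f hf.1, add_zero, ← hap _ hf.1, ← hap _ (hωf k).1, hlf] at h2
    exact h2.symm
  have h2 := P_conv W w N hwF hwAC hW (fun k => ⟨ω k * f, hωf k⟩) 0 1 (by
    intro k
    filter_upwards [hω1 k, hf1] with x h1 h2
    show ‖(ω k * f) x‖ ≤ 1
    rw [Pi.mul_apply, norm_mul]
    have h3 : ‖ω k x‖ ≤ 1 := by nlinarith [norm_nonneg (ω k x), norm_nonneg (1 - ω k x)]
    nlinarith [norm_nonneg (ω k x), norm_nonneg (f x)]) (by
    filter_upwards [hω0] with x hx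
    show Tendsto (fun k => (ω k * f) x) atTop (𝓝 0)
    have := hx.mul_const (f x)
    rw [zero_mul] at this
    exact this)
  have h3 : Tendsto (fun k => Λ (P ⟨ω k * f, hωf k⟩) / A) atTop (𝓝 0) := by
    have h4 := ((Λ.continuous.tendsto _).comp h2).div_const (A : ℂ)
    rw [map_zero, map_zero, zero_div] at h4
    exact h4
  have h4 : (fun k => Λ (P ⟨ω k * f, hωf k⟩) / A) = fun _ => 1 := by
    funext k
    rw [← hθe, ← hlamθ _ (hωf k), h1 k]
  rw [h4] at h3
  exact one_ne_zero (tendsto_nhds_unique tendsto_const_nhds h3)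

end Pool.Agent.R422.EX
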