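import Pool.Agent.R422.EX.Hardy

/-!
# Functions with positive real part
-/

set_option autoImplicit false

open scoped Topology ENNReal Real ComplexConjugate InnerProductSpace Polynomial
open MeasureTheory Filter Set Complex

noncomputable section

namespace Pool.Agent.R422.EX

/-- real parts of trigonometric polynomials are real parts of polynomials -/
lemma span_re {T : C(TC, ℂ)} (hT : T ∈ Submodule.span ℂ (range (fourier (T := 2 * π)))) :
    ∀ c : ℂ, ∃ p : ℂ[X], ∀ x, (c * T x).re = (p.eval (zt x)).re := by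
  induction hT using Submodule.span_induction with
  | mem T h =>
    obtain ⟨n, rfl⟩ := h
    intro c
    rcases le_total 0 n with hn | hn
    · obtain ⟨m, rfl⟩ := Int.eq_ofNat_of_zero_le hn
      refine ⟨Polynomial.C c * Polynomial.X ^ m, fun x => ?_⟩
      rw [fourier_eq]
      simp
    · obtain ⟨m, hm⟩ := Int.eq_ofNat_of_zero_le (show 0 ≤ -n by omega)
      refine ⟨Polynomial.C (conj c) * Polynomial.X ^ m, fun x => ?_⟩
      have h1 : fourier n x = conj (zt x ^ m) := by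
        have : n = -(m : ℤ) := by omega
        rw [this, fourier_neg, fourier_eq]
        simp
      rw [h1]
      simp only [Polynomial.eval_mul, Polynomial.eval_C, Polynomial.eval_pow, Polynomial.eval_X]
      rw [← Complex.conj_re (c * conj (zt x ^ m))]
      simp
  | zero =>
    intro c
    exact ⟨0, fun x => by simp⟩
  | add S T _ _ hS hT =>
    intro c
    obtain ⟨p, hp⟩ := hS c
    obtain ⟨q, hq⟩ := hT c
    refine ⟨p + q, fun x => ?_⟩
    rw [ContinuousMap.add_apply, mul_add, add_re, hp, hq, Polynomial.eval_add, add_re]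
  | smul a T _ hT =>
    intro c
    obtain ⟨p, hp⟩ := hT (c * a)
    refine ⟨p, fun x => ?_⟩
    rw [← hp, ContinuousMap.smul_apply, smul_eq_mul, mul_assoc]

/-- uniform approximation -/
lemma approx_unif (g : C(TC, ℝ)) (hg : ∀ x, 0 ≤ g x) {ε : ℝ} (hε : 0 < ε) :
    ∃ p : ℂ[X], (p.coeff 0).im = 0 ∧ (∀ x, 0 ≤ (p.eval (zt x)).re) ∧
      ∀ x, |(p.eval (zt x)).re - g x| ≤ 2 * ε := by
  set gc : C(TC, ℂ) := ⟨fun x => (g x : ℂ), by fun_prop⟩ with hgc
  have h1 : gc ∈ (Submodule.span ℂ (range (fourier (T := 2 * π)))).topologicalClosure := by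
    rw [span_fourier_closure_eq_top]; trivial
  have h2 : gc ∈ closure ((Submodule.span ℂ (range (fourier (T := 2 * π))) : Submodule ℂ C(TC, ℂ)) :
      Set C(TC, ℂ)) := h1
  obtain ⟨T, hT, hTd⟩ := Metric.mem_closure_iff.1 h2 ε hε
  obtain ⟨p, hp⟩ := span_re hT 1
  have h3 : ∀ x, |(T x).re - g x| ≤ ε := by
    intro x
    have h4 : ‖(gc - T) x‖ ≤ ‖gc - T‖ := ContinuousMap.norm_coe_le_norm _ x
    rw [dist_eq_norm] at hTd
    have h5 := Complex.abs_re_le_norm ((gc - T) x)
    have h6 : ((gc - T) x).re = g x - (T x).re := by simp [hgc]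
    rw [h6, abs_sub_comm] at h5
    linarith
  refine ⟨p + Polynomial.C ((ε : ℂ) - ((p.coeff 0).im : ℂ) * I), ?_, ?_, ?_⟩
  · simp
  · intro x
    have h4 := hp x
    rw [one_mul] at h4
    have h5 := (abs_le.1 (h3 x)).1
    simp only [Polynomial.eval_add, Polynomial.eval_C, add_re, sub_re, ofReal_re, mul_re, I_re,
      mul_zero, ofReal_im, I_im, zero_mul, sub_self, sub_zero]
    have := hg x
    linarith
  · intro x
    have h4 := hp x
    rw [one_mul] at h4
    have h5 := abs_le.1 (h3 x)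
    simp only [Polynomial.eval_add, Polynomial.eval_C, add_re, sub_re, ofReal_re, mul_re, I_re,
      mul_zero, ofReal_im, I_im, zero_mul, sub_self, sub_zero]
    rw [abs_le]
    constructor <;> linarith [h5.1, h5.2]

/-- polynomials with nonnegative real part on the circle -/
lemma re_nonneg_disc {p : ℂ[X]} (hp : ∀ x, 0 ≤ (p.eval (zt x)).re) {z : ℂ} (hz : ‖z‖ ≤ 1) :
    0 ≤ (p.eval z).re := by
  have hcirc : ∀ w : ℂ, ‖w‖ = 1 → 0 ≤ (p.eval w).re := by
    intro w hw
    obtain ⟨x, hx⟩ : ∃ x : TC, zt x = w := by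
      refine ⟨((arg w : ℝ) : TC), ?_⟩
      rw [zt_coe]
      have := norm_mul_exp_arg_mul_I w
      rw [hw] at this
      simpa using this
    rw [← hx]; exact hp x
  have hd : DiffContOnCl ℂ (fun z => exp (-(p.eval z))) (Metric.ball 0 1) := by
    apply Differentiable.diffContOnCl
    fun_prop
  have h1 := Complex.norm_le_of_forall_mem_frontier_norm_le (Metric.isBounded_ball (x := (0 : ℂ))
    (r := 1)) hd (C := 1) (fun w hw => by
      rw [frontier_ball _ one_ne_zero] at hw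
      have hw' : ‖w‖ = 1 := by simpa using hw
      rw [norm_exp, neg_re]
      exact Real.exp_le_one_iff.2 (neg_nonpos.2 (hcirc w hw'))) (z := z) (by
        rw [closure_ball _ one_ne_zero]; simpa using hz)
  rw [norm_exp, neg_re, Real.exp_le_one_iff] at h1
  linarith

/-- the `L²` bound of the conjugate function -/
lemma conj_bound {p : ℂ[X]} (hp : (p.coeff 0).im = 0) :
    ∫ x, ‖p.eval (zt x)‖ ^ 2 ∂mT ≤ 2 * ∫ x, ((p.eval (zt x)).re) ^ 2 ∂mT := by
  have hc : Continuous (fun x => p.eval (zt x)) := p.continuous.comp continuous_zt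
  have h1 := integral_holo (G := fun z => (p.eval z) ^ 2) (fun z _ => by fun_prop)
  have i0 : Integrable (fun x => (p.eval (zt x)) ^ 2) mT := (bm_cont (hc.pow 2)).integrable
  have ir : ∀ f : TC → ℝ, Continuous f → Integrable f mT := by
    intro f hf
    have := (bm_cont (u := fun x => (f x : ℂ)) (by fun_prop)).integrable.re
    simpa using this
  have cr : Continuous (fun x => ((p.eval (zt x)).re) ^ 2) := (continuous_re.comp hc).pow 2
  have ci : Continuous (fun x => ((p.eval (zt x)).im) ^ 2) := (continuous_im.comp hc).pow 2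
  have h2 : ∫ x, (((p.eval (zt x)) ^ 2).re) ∂mT = ((p.eval 0) ^ 2).re := by
    rw [← h1]
    exact integral_re i0
  have h3 : (fun x => ((p.eval (zt x)) ^ 2).re) = fun x => ((p.eval (zt x)).re) ^ 2 -
      ((p.eval (zt x)).im) ^ 2 := by
    funext x
    rw [sq, mul_re]; ring
  rw [h3, integral_sub (ir _ cr) (ir _ ci)] at h2
  have h4 : 0 ≤ ((p.eval 0) ^ 2).re := by
    rw [← Polynomial.coeff_zero_eq_eval_zero, sq, mul_re, hp]
    nlinarith [mul_self_nonneg (p.coeff 0).re]
  have h5 : (fun x => ‖p.eval (zt x)‖ ^ 2) = fun x => ((p.eval (zt x)).re) ^ 2 +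
      ((p.eval (zt x)).im) ^ 2 := by
    funext x
    rw [← normSq_eq_norm_sq, normSq_apply]; ring
  rw [h5, integral_add (ir _ cr) (ir _ ci)]
  linarith

/-- a polynomial on the circle as an element of `L²` -/
def pL (p : ℂ[X]) : Lp ℂ 2 mT := ((bm_cont (p.continuous.comp continuous_zt)).memLp 2).toLp _

lemma pL_coe (p : ℂ[X]) : pL p =ᵐ[mT] fun x => p.eval (zt x) :=
  ((bm_cont (p.continuous.comp continuous_zt)).memLp 2).coeFn_toLp

lemma pL_sub (p q : ℂ[X]) : pL (p - q) = pL p - pL q := by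
  unfold pL
  rw [← MemLp.toLp_sub]
  congr 1
  funext x
  simp

/-- real part -/
def reL : Lp ℂ 2 mT →L[ℝ] Lp ℝ 2 mT := reCLM.compLpL 2 mT

lemma reL_coe (f : Lp ℂ 2 mT) : reL f =ᵐ[mT] fun x => (f x).re := reCLM.coeFn_compLpL f

lemma norm_pL_le {p : ℂ[X]} (hp : (p.coeff 0).im = 0) : ‖pL p‖ ≤ 2 * ‖reL (pL p)‖ := by
  have h1 := conj_bound hp
  have e1 : ‖pL p‖ ^ 2 = ∫ x, ‖p.eval (zt x)‖ ^ 2 ∂mT := by
    have h2 : ⟪pL p, pL p⟫_ℂ = ((‖pL p‖ : ℂ)) ^ 2 := inner_self_eq_norm_sq_to_K _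
    rw [L2.inner_def] at h2
    have h3 : ∫ x, ⟪pL p x, pL p x⟫_ℂ ∂mT = ((∫ x, ‖p.eval (zt x)‖ ^ 2 ∂mT : ℝ) : ℂ) := by
      rw [← integral_complex_ofReal]
      refine integral_congr_ae ?_
      filter_upwards [pL_coe p] with x hx
      rw [hx, inner_self_eq_norm_sq_to_K]
      push_cast
      rfl
    rw [h3] at h2
    exact_mod_cast h2.symm
  have e2 : ‖reL (pL p)‖ ^ 2 = ∫ x, ((p.eval (zt x)).re) ^ 2 ∂mT := by
    have h2 : ⟪reL (pL p), reL (pL p)⟫_ℝ = ‖reL (pL p)‖ ^ 2 := real_inner_self_eq_norm_sq _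
    rw [L2.inner_def] at h2
    rw [← h2]
    refine integral_congr_ae ?_
    filter_upwards [pL_coe p, reL_coe (pL p)] with x h3 h4
    rw [h4, h3]
    simp [sq]
  have h3 : ‖pL p‖ ^ 2 ≤ (2 * ‖reL (pL p)‖) ^ 2 := by
    rw [e1, mul_pow, e2]
    have : 0 ≤ ∫ x, ((p.eval (zt x)).re) ^ 2 ∂mT := integral_nonneg fun x => sq_nonneg _
    linarith
  exact le_of_sq_le_sq h3 (by positivity)

/-- approximation in `L²` -/
lemma approx_L2 (P : Lp ℝ 2 mT) (hP : 0 ≤ᵐ[mT] P) {ε : ℝ} (hε : 0 < ε) :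
    ∃ p : ℂ[X], (p.coeff 0).im = 0 ∧ (∀ x, 0 ≤ (p.eval (zt x)).re) ∧ ‖reL (pL p) - P‖ ≤ ε := by
  obtain ⟨g, hg1, hg2⟩ := (Lp.memLp P).exists_boundedContinuous_eLpNorm_sub_le (by norm_num)
    (ε := ENNReal.ofReal (ε / 3)) (by simpa using by positivity)
  set gp : C(TC, ℝ) := ⟨fun x => max (g x) 0, g.continuous.max continuous_const⟩ with hgp
  obtain ⟨p, hp1, hp2, hp3⟩ := approx_unif gp (fun x => le_max_right _ _)
    (ε := ε / 6) (by positivity)
  refine ⟨p, hp1, hp2, ?_⟩
  rw [Lp.norm_def]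
  refine ENNReal.toReal_le_of_le_ofReal hε.le ?_
  have e1 : (reL (pL p) - P : Lp ℝ 2 mT) =ᵐ[mT] (fun x => (p.eval (zt x)).re - gp x) +
      fun x => gp x - P x := by
    filter_upwards [Lp.coeFn_sub (reL (pL p)) P, reL_coe (pL p), pL_coe p] with x h1 h2 h3
    rw [h1, Pi.sub_apply, h2, h3, Pi.add_apply]
    ring
  rw [eLpNorm_congr_ae e1]
  have m1 : AEStronglyMeasurable (fun x => (p.eval (zt x)).re - gp x) mT :=
    ((continuous_re.comp (p.continuous.comp continuous_zt)).sub gp.continuous).aestronglyMeasurable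
  have m2 : AEStronglyMeasurable (fun x => gp x - P x) mT :=
    gp.continuous.aestronglyMeasurable.sub (Lp.aestronglyMeasurable P)
  refine (eLpNorm_add_le m1 m2 (by norm_num)).trans ?_
  have b1 : eLpNorm (fun x => (p.eval (zt x)).re - gp x) 2 mT ≤ ENNReal.ofReal (ε / 3) := by
    have h1 := eLpNorm_le_of_ae_bound (p := 2) (μ := mT) (f := fun x => (p.eval (zt x)).re - gp x)
      (C := ε / 3) (Eventually.of_forall fun x => by
        rw [Real.norm_eq_abs]
        have := hp3 x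
        linarith)
    simpa using h1
  have b2 : eLpNorm (fun x => gp x - P x) 2 mT ≤ ENNReal.ofReal (ε / 3) := by
    refine le_trans (eLpNorm_mono_ae ?_) hg1
    filter_upwards [hP] with x hx
    rw [Pi.sub_apply, Real.norm_eq_abs, Real.norm_eq_abs]
    have hx' : 0 ≤ P x := hx
    change |max (g x) 0 - P x| ≤ |P x - g x|
    rw [abs_sub_comm]
    rcases le_total (g x) 0 with h | h
    · rw [max_eq_right h, sub_zero, abs_of_nonneg hx', abs_of_nonneg (by linarith)]
      linarith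
    · rw [max_eq_left h]
  calc _ ≤ ENNReal.ofReal (ε / 3) + ENNReal.ofReal (ε / 3) := add_le_add b1 b2
    _ = ENNReal.ofReal (ε / 3 + ε / 3) := (ENNReal.ofReal_add (by positivity) (by positivity)).symm
    _ ≤ ENNReal.ofReal ε := ENNReal.ofReal_le_ofReal (by linarith)

/-- analytic functions with given real part -/
theorem outer (P : Lp ℝ 2 mT) (hP : 0 ≤ᵐ[mT] P) : ∃ F : TC → ℂ, Integrable F mT ∧
    (∀ᵐ x ∂mT, (F x).re = P x) ∧ ∀ G : ℂ → ℂ, (∀ w : ℂ, -1 < w.re → DifferentiableAt ℂ G w) →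
      (∀ w : ℂ, 0 ≤ w.re → ‖G w‖ ≤ 1) →
      HI (fun x => G (F x)) ∧ fourierCoeff (fun x => G (F x)) 0 = G (∫ x, F x ∂mT) := by
  have hap : ∀ j : ℕ, ∃ p : ℂ[X], (p.coeff 0).im = 0 ∧ (∀ x, 0 ≤ (p.eval (zt x)).re) ∧
      ‖reL (pL p) - P‖ ≤ 1 / ((j : ℝ) + 1) := fun j => approx_L2 P hP (by positivity)
  choose p hp1 hp2 hp3 using hap
  have hlim0 := tendsto_one_div_add_atTop_nhds_zero_nat (𝕜 := ℝ)
  have hcau : CauchySeq (fun j => pL (p j)) := by
    refine cauchySeq_of_le_tendsto_0 (fun j : ℕ => 4 * (1 / ((j : ℝ) + 1))) ?_ ?_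
    · intro i j N hi hj
      rw [dist_eq_norm, ← pL_sub]
      refine (norm_pL_le (by simp [hp1])).trans ?_
      rw [pL_sub, map_sub]
      have h1 : reL (pL (p i)) - reL (pL (p j)) = (reL (pL (p i)) - P) - (reL (pL (p j)) - P) := by
        abel
      rw [h1]
      have h2 := norm_sub_le (reL (pL (p i)) - P) (reL (pL (p j)) - P)
      have mono : ∀ k : ℕ, N ≤ k → 1 / ((k : ℝ) + 1) ≤ 1 / ((N : ℝ) + 1) := by
        intro k hk
        apply one_div_le_one_div_of_le (by positivity)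
        have : (N : ℝ) ≤ k := by exact_mod_cast hk
        linarith
      have h3 := hp3 i
      have h4 := hp3 j
      have h5 := mono i hi
      have h6 := mono j hj
      linarith
    · simpa using hlim0.const_mul 4
  obtain ⟨F, hF⟩ := cauchySeq_tendsto_of_complete hcau
  have hreF : reL F = P := by
    have h1 : Tendsto (fun j => reL (pL (p j))) atTop (𝓝 (reL F)) :=
      (reL.continuous.tendsto F).comp hF
    have h2 : Tendsto (fun j => reL (pL (p j))) atTop (𝓝 P) := by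
      rw [tendsto_iff_norm_sub_tendsto_zero]
      exact squeeze_zero (fun j => norm_nonneg _) hp3 hlim0
    exact tendsto_nhds_unique h1 h2
  have hFi : Integrable F mT := (Lp.memLp F).integrable (by norm_num)
  have hreF' : ∀ᵐ x ∂mT, (F x).re = P x := by
    have := reL_coe F
    rw [hreF] at this
    filter_upwards [this] with x hx using hx.symm
  refine ⟨F, hFi, hreF', fun G hG hG1 => ?_⟩
  have hP' : ∀ᵐ x ∂mT, 0 ≤ P x := hP
  have hint : 0 ≤ (∫ x, F x ∂mT).re := by
    have h1 : (∫ x, F x ∂mT).re = ∫ x, (F x).re ∂mT := (integral_re hFi).symm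
    rw [h1]
    refine integral_nonneg_of_ae ?_
    filter_upwards [hreF', hP'] with x h2 h3
    rw [Pi.zero_apply, h2]; exact h3
  obtain ⟨ns, hns, hae⟩ := (tendstoInMeasure_of_tendsto_Lp hF).exists_seq_tendsto_ae
  have hcoe : ∀ᵐ x ∂mT, ∀ i, pL (p (ns i)) x = (p (ns i)).eval (zt x) :=
    ae_all_iff.2 fun i => pL_coe _
  have hhol : ∀ i, ∀ z : ℂ, ‖z‖ ≤ 1 → DifferentiableAt ℂ (fun z => G ((p (ns i)).eval z)) z := by
    intro i z hz
    have h1 := re_nonneg_disc (hp2 (ns i)) hz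
    exact DifferentiableAt.comp (g := G) z (hG _ (by linarith)) (p (ns i)).differentiableAt
  have hlimG : ∀ᵐ x ∂mT, Tendsto (fun i => G ((p (ns i)).eval (zt x))) atTop (𝓝 (G (F x))) := by
    filter_upwards [hae, hcoe, hreF', hP'] with x h1 h2 h3 h4
    simp_rw [h2] at h1
    have h5 : ContinuousAt G (F x) := (hG _ (by rw [h3]; linarith)).continuousAt
    exact h5.tendsto.comp h1
  have hmeas : AEStronglyMeasurable (fun x => G (F x)) mT :=
    aestronglyMeasurable_of_tendsto_ae atTop (fun i => (hi_holo (hhol i)).1.1.1) hlimG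
  obtain ⟨r1, r2⟩ := hi_lim (fun i => (hi_holo (hhol i)).1) hmeas (C := 1)
    (fun i => Eventually.of_forall fun x => hG1 _ (hp2 (ns i) x)) hlimG
  refine ⟨r1, tendsto_nhds_unique r2 ?_⟩
  have h6 : ∀ i, fourierCoeff (fun x => G ((p (ns i)).eval (zt x))) 0 = G ((p (ns i)).eval 0) :=
    fun i => (hi_holo (hhol i)).2
  simp_rw [h6]
  have h7 : Tendsto (fun i => (p (ns i)).eval 0) atTop (𝓝 (∫ x, F x ∂mT)) := by
    have c1 : Tendsto (fun i => ⟪(fourierBasis (T := 2 * π)) 0, pL (p (ns i))⟫_ℂ) atTop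
        (𝓝 ⟪(fourierBasis (T := 2 * π)) 0, F⟫_ℂ) :=
      (tendsto_const_nhds.inner hF).comp hns.tendsto_atTop
    have c2 : ∀ f : Lp ℂ 2 mT, ⟪(fourierBasis (T := 2 * π)) 0, f⟫_ℂ = ∫ x, f x ∂mT := by
      intro f
      rw [← HilbertBasis.repr_apply_apply, fourierBasis_repr, fc_def]
      simp
    rw [c2] at c1
    refine c1.congr fun i => ?_
    rw [c2, integral_congr_ae (pL_coe (p (ns i)))]
    exact integral_holo fun z _ => (p (ns i)).differentiableAt
  have h8 : ContinuousAt G (∫ x, F x ∂mT) := (hG _ (by linarith)).continuousAt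
  exact h8.tendsto.comp h7

end Pool.Agent.R422.EX
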