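import Pool.Agent.R422.EX.Outer

/-!
# The multipliers, and uniqueness
-/

set_option autoImplicit false

open scoped Topology ENNReal Real ComplexConjugate InnerProductSpace Polynomial
open MeasureTheory Filter Set Complex

noncomputable section

namespace Pool.Agent.R422.EX

lemma lp_sum (b : ℕ → Lp ℝ 2 mT) (n : ℕ) :
    ∀ᵐ x ∂mT, (∑ i ∈ Finset.range n, b i : Lp ℝ 2 mT) x = ∑ i ∈ Finset.range n, b i x := by
  induction n with
  | zero =>
    simp only [Finset.range_zero, Finset.sum_empty]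
    exact Lp.coeFn_zero _ _ _
  | succ n ih =>
    simp only [Finset.sum_range_succ]
    filter_upwards [ih, Lp.coeFn_add (∑ i ∈ Finset.range n, b i) (b n)] with x h1 h2
    rw [h2, Pi.add_apply, h1]

theorem tool (B : ℕ → Set TC) (hBm : ∀ n, MeasurableSet (B n)) (hB : Antitone B)
    (hμ : ∀ n, mT (B n) ≤ ENNReal.ofReal ((1 / 16) ^ n)) :
    ∃ F : TC → ℂ, AEStronglyMeasurable F mT ∧ (∀ᵐ x ∂mT, 0 ≤ (F x).re) ∧
      (∀ n : ℕ, ∀ᵐ x ∂mT, x ∈ B n → (n : ℝ) ≤ (F x).re) ∧
      ∀ k : ℕ, 1 ≤ k → HI (fun x => F x / (k + F x)) := by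
  set b : ℕ → Lp ℝ 2 mT := fun n => indicatorConstLp 2 (hBm n) (measure_ne_top _ _) (1 : ℝ) with hb
  have hbn : ∀ n, ‖b n‖ ≤ (1 / 4) ^ n := by
    intro n
    rw [hb]
    simp only
    rw [norm_indicatorConstLp (by norm_num) (by norm_num)]
    have h1 : (mT).real (B n) ≤ (1 / 16) ^ n :=
      ENNReal.toReal_le_of_le_ofReal (by positivity) (hμ n)
    have h2 : ((1 / 16 : ℝ) ^ n) = ((1 / 4) ^ n) ^ (2 : ℝ) := by
      rw [Real.rpow_two, ← pow_mul, mul_comm n 2, pow_mul]
      norm_num
    have h3 : (mT).real (B n) ^ (1 / (2 : ℝ≥0∞).toReal) ≤ (1 / 4) ^ n := by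
      calc (mT).real (B n) ^ (1 / (2 : ℝ≥0∞).toReal)
          ≤ ((1 / 16 : ℝ) ^ n) ^ (1 / (2 : ℝ≥0∞).toReal) :=
            Real.rpow_le_rpow measureReal_nonneg h1 (by positivity)
        _ = (1 / 4) ^ n := by
            rw [h2, ← Real.rpow_mul (by positivity)]
            simp
    simpa using h3
  have hsum : Summable b := Summable.of_norm_bounded
    (summable_geometric_of_lt_one (by norm_num) (by norm_num)) hbn
  have hb0 : ∀ n, 0 ≤ b n := by
    intro n
    rw [← Lp.coeFn_nonneg]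
    filter_upwards [indicatorConstLp_coeFn (p := 2) (hs := hBm n) (hμs := measure_ne_top mT _)
      (c := (1 : ℝ))] with x hx
    rw [hx]
    exact indicator_nonneg (fun _ _ => zero_le_one) x
  set P : Lp ℝ 2 mT := ∑' n, b n with hP
  have hP0 : 0 ≤ P := tsum_nonneg hb0
  have hPn : ∀ n : ℕ, ∀ᵐ x ∂mT, x ∈ B n → (n : ℝ) ≤ P x := by
    intro n
    have h1 : ∑ i ∈ Finset.range n, b i ≤ P := hsum.sum_le_tsum _ fun i _ => hb0 i
    have h2 := (Lp.coeFn_le _ _).2 h1
    have h3 : ∀ᵐ x ∂mT, (∑ i ∈ Finset.range n, b i : Lp ℝ 2 mT) x = ∑ i ∈ Finset.range n, b i x := by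
      exact lp_sum b n
    have h4 : ∀ᵐ x ∂mT, ∀ i, b i x = (B i).indicator (fun _ => (1 : ℝ)) x :=
      ae_all_iff.2 fun i => indicatorConstLp_coeFn
    filter_upwards [h2, h3, h4] with x a1 a2 a3 hx
    rw [a2] at a1
    refine le_trans (le_of_eq ?_) a1
    have h5 : ∀ i ∈ Finset.range n, b i x = 1 := by
      intro i hi
      rw [a3, indicator_of_mem (hB (Finset.mem_range.1 hi).le hx)]
    rw [Finset.sum_congr rfl h5]
    simp
  obtain ⟨F, hFi, hFr, hFG⟩ := outer P ((Lp.coeFn_nonneg _).2 hP0)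
  have hP0' : ∀ᵐ x ∂mT, 0 ≤ P x := (Lp.coeFn_nonneg _).2 hP0
  refine ⟨F, hFi.1, ?_, ?_, ?_⟩
  · filter_upwards [hFr, hP0'] with x h1 h2
    rw [h1]; exact h2
  · intro n
    filter_upwards [hFr, hPn n] with x h1 h2 hx
    rw [h1]; exact h2 hx
  · intro k hk
    have hk' : (1 : ℝ) ≤ k := by exact_mod_cast hk
    refine (hFG (fun w => w / (k + w)) ?_ ?_).1
    · intro w hw
      refine differentiableAt_id.div (by fun_prop) ?_
      intro h0
      have := congrArg re h0
      simp at this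
      linarith
    · intro w hw
      rw [norm_div]
      refine div_le_one_of_le₀ ?_ (norm_nonneg _)
      rw [← sq_le_sq₀ (norm_nonneg _) (norm_nonneg _), ← normSq_eq_norm_sq, ← normSq_eq_norm_sq,
        normSq_apply, normSq_apply]
      simp
      nlinarith

/-- shift of the coefficients -/
lemma fc_shift (u : TC → ℂ) (k j : ℤ) :
    fourierCoeff (fun x => fourier (-k) x * u x) j = fourierCoeff u (j + k) := by
  rw [fc_def, fc_def]
  congr 1
  funext x
  rw [← mul_assoc, ← fourier_add]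
  congr 3
  ring

lemma unique_zero {u : TC → ℂ} (hu : HI u) {E : Set TC} (hE : MeasurableSet E) (hμE : mT E ≠ 0)
    (h0 : ∀ᵐ x ∂mT, x ∈ E → u x = 0) : fourierCoeff u 0 = 0 := by
  set P : Lp ℝ 2 mT := indicatorConstLp 2 hE.compl (measure_ne_top _ _) (1 : ℝ) with hP
  have hPc : ∀ᵐ x ∂mT, P x = Eᶜ.indicator (fun _ => (1 : ℝ)) x := indicatorConstLp_coeFn
  have hP0 : 0 ≤ᵐ[mT] P := by
    filter_upwards [hPc] with x hx
    rw [hx]
    exact indicator_nonneg (fun _ _ => zero_le_one) x
  obtain ⟨F, hFi, hFr, hFG⟩ := outer P hP0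
  obtain ⟨C, hC0, hC⟩ := hu.1.exists_nonneg
  have hc : (∫ x, F x ∂mT).re = (mT).real Eᶜ := by
    have h1 : (∫ x, F x ∂mT).re = ∫ x, (F x).re ∂mT := (integral_re hFi).symm
    rw [h1, integral_congr_ae hFr, integral_congr_ae hPc, integral_indicator_const _ hE.compl]
    simp
  have hc1 : (mT).real E + (mT).real Eᶜ = 1 := probReal_add_probReal_compl hE
  have hE0 : 0 < (mT).real E := by
    rw [measureReal_def]
    exact ENNReal.toReal_pos hμE (measure_ne_top _ _)
  have key : ∀ N : ℕ, ‖fourierCoeff u 0‖ ≤ C * Real.exp (-((mT).real E) * N) := by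
    intro N
    have hG := hFG (fun w => exp (-(N * w))) (fun w _ => by fun_prop) (fun w hw => by
      rw [norm_exp]
      apply Real.exp_le_one_iff.2
      simp
      positivity)
    have hprod := (hu.mul hG.1).2
    rw [hG.2] at hprod
    have h1 : ‖fourierCoeff (u * fun x => exp (-(N * F x))) 0‖ ≤ C * Real.exp (-N) := by
      rw [fc_def]
      simp only [neg_zero, fourier_zero, one_mul]
      have h2 := norm_integral_le_of_norm_le_const (μ := mT)
        (f := (u * fun x => exp (-(N * F x)))) (C := C * Real.exp (-N)) (by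
        filter_upwards [h0, hC, hFr, hPc] with x a1 a2 a3 a4
        rw [Pi.mul_apply, norm_mul, norm_exp]
        by_cases hx : x ∈ E
        · rw [a1 hx, norm_zero, zero_mul]
          positivity
        · have h3 : (F x).re = 1 := by
            rw [a3, a4, indicator_of_mem (show x ∈ Eᶜ from hx)]
          have h4 : (-(N * F x)).re = -N := by
            simp [h3]
          rw [h4]
          exact mul_le_mul_of_nonneg_right a2 (Real.exp_pos _).le)
      simpa using h2
    rw [hprod, norm_mul, norm_exp] at h1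
    have h5 : (-(N * ∫ x, F x ∂mT)).re = -(N * (mT).real Eᶜ) := by
      simp [← hc]
    rw [h5] at h1
    have h6 : ‖fourierCoeff u 0‖ = ‖fourierCoeff u 0‖ * Real.exp (-(N * (mT).real Eᶜ)) *
        Real.exp (N * (mT).real Eᶜ) := by
      rw [mul_assoc, ← Real.exp_add]; simp
    rw [h6]
    refine (mul_le_mul_of_nonneg_right h1 (Real.exp_pos _).le).trans (le_of_eq ?_)
    rw [mul_assoc, ← Real.exp_add]
    congr 2
    have : (mT).real Eᶜ = 1 - (mT).real E := by linarith
    rw [this]; ring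
  have hlim : Tendsto (fun N : ℕ => C * Real.exp (-((mT).real E) * N)) atTop (𝓝 (C * 0)) := by
    refine Tendsto.const_mul C (Real.tendsto_exp_atBot.comp ?_)
    exact (tendsto_natCast_atTop_atTop (R := ℝ)).const_mul_atTop_of_neg (by linarith)
  rw [mul_zero] at hlim
  have := ge_of_tendsto' hlim key
  exact norm_le_zero_iff.1 this

theorem unique_HI {u : TC → ℂ} (hu : HI u) {E : Set TC} (hE : MeasurableSet E) (hμE : mT E ≠ 0)
    (h0 : ∀ᵐ x ∂mT, x ∈ E → u x = 0) : u =ᵐ[mT] 0 := by
  apply fc_inj hu.1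
  have key : ∀ k : ℕ, fourierCoeff u k = 0 := by
    intro k
    induction k using Nat.strong_induction_on with
    | _ k ih =>
      have h1 : HI (fun x => fourier (-(k : ℤ)) x * u x) := by
        refine ⟨(bm_fourier _).mul hu.1, fun j hj => ?_⟩
        rw [fc_shift]
        rcases lt_or_ge (j + k) 0 with h | h
        · exact hu.2 _ h
        · obtain ⟨i, hi⟩ := Int.eq_ofNat_of_zero_le h
          rw [hi]
          exact ih i (by omega)
      have h2 := unique_zero h1 hE hμE (by
        filter_upwards [h0] with x hx hxE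
        rw [hx hxE, mul_zero])
      rw [fc_shift, zero_add] at h2
      exact h2
  intro k
  rcases lt_or_ge k 0 with h | h
  · exact hu.2 k h
  · obtain ⟨i, rfl⟩ := Int.eq_ofNat_of_zero_le h
    exact key i

end Pool.Agent.R422.EX
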